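import Pool.Agent.RELD.ITR

/-! # From multigraphs to simple graphs -/

open Polynomial

namespace Pool.Agent.RELD

open Classical in
/-- the all-terminal reliability polynomial of a simple graph, evaluated at `q`: the sum over the
sets `A` of edges such that the spanning subgraph with edge set `A` is connected -/
noncomputable def srel {V : Type} [Fintype V] (S : SimpleGraph V) (q : ℂ) : ℂ :=
  ∑ A ∈ S.edgeFinset.powerset, if (SimpleGraph.fromEdgeSet (A : Set (Sym2 V))).Connected then
    (1 - q) ^ A.card * q ^ (S.edgeFinset.card - A.card) else 0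

namespace MG

variable (G : MG)

/-- the unordered pair of ends -/
def ends (e : G.E) : Sym2 G.V := s(G.s e, G.t e)

lemma sub_adj {A : Finset G.E} {x y : G.V} : (G.sub A).Adj x y ↔ x ≠ y ∧ ∃ e ∈ A, G.ends e = s(x, y) := by
  rw [sub, SimpleGraph.fromRel_adj]
  refine and_congr_right fun _ => ?_
  constructor
  · rintro (⟨e, he, h1, h2⟩ | ⟨e, he, h1, h2⟩)
    · exact ⟨e, he, by rw [ends, h1, h2]⟩
    · exact ⟨e, he, by rw [ends, h1, h2]; exact Sym2.eq_swap⟩
  · rintro ⟨e, he, h⟩
    rw [ends, Sym2.eq_iff] at h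
    rcases h with ⟨h1, h2⟩ | ⟨h1, h2⟩
    · exact Or.inl ⟨e, he, h1, h2⟩
    · exact Or.inr ⟨e, he, h1, h2⟩

lemma sub_mono {A B : Finset G.E} (h : A ⊆ B) : G.sub A ≤ G.sub B := by
  intro x y hxy
  rw [sub_adj] at hxy ⊢
  exact ⟨hxy.1, hxy.2.choose, h hxy.2.choose_spec.1, hxy.2.choose_spec.2⟩

lemma connected_of_rel_ne {q : ℂ} (h : G.rel q ≠ 0) : (G.sub Finset.univ).Connected := by
  classical
  by_contra hc
  apply h
  rw [rel]
  refine Finset.sum_eq_zero fun A _ => if_neg fun hA => hc ?_
  exact hA.mono (G.sub_mono (Finset.subset_univ A))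

lemma fromEdgeSet_map (hinj : Function.Injective G.ends) (A : Finset G.E) :
    SimpleGraph.fromEdgeSet ((A.map ⟨G.ends, hinj⟩ : Finset (Sym2 G.V)) : Set (Sym2 G.V)) =
      G.sub A := by
  ext x y
  rw [SimpleGraph.fromEdgeSet_adj, sub_adj, and_comm]
  refine and_congr_right fun _ => ?_
  simp only [Finset.coe_map, Function.Embedding.coeFn_mk, Set.mem_image, Finset.mem_coe]

lemma srel_sub (hl : G.Loopless) (hinj : Function.Injective G.ends) (q : ℂ) :
    srel (G.sub Finset.univ) q = G.rel q := by
  classical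
  have hE : (G.sub Finset.univ).edgeFinset = Finset.univ.map ⟨G.ends, hinj⟩ := by
    ext e
    rw [SimpleGraph.mem_edgeFinset]
    induction e using Sym2.ind with
    | _ x y =>
      rw [SimpleGraph.mem_edgeSet, sub_adj]
      simp only [Finset.mem_univ, true_and, Finset.mem_map, Function.Embedding.coeFn_mk]
      constructor
      · rintro ⟨_, h⟩; exact h
      · rintro ⟨e, h⟩
        refine ⟨fun hxy => ?_, e, h⟩
        rw [ends, Sym2.eq_iff] at h
        rcases h with ⟨h1, h2⟩ | ⟨h1, h2⟩
        · exact hl e (h1.trans (hxy.trans h2.symm))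
        · exact hl e (h1.trans (hxy.symm.trans h2.symm))
  have hcard : (G.sub Finset.univ).edgeFinset.card = Fintype.card G.E := by
    rw [hE, Finset.card_map, Finset.card_univ]
  rw [srel, rel]
  symm
  refine Finset.sum_bij (fun A _ => A.map ⟨G.ends, hinj⟩) ?_ ?_ ?_ ?_
  · intro A _
    rw [Finset.mem_powerset]
    convert Finset.map_subset_map.mpr (Finset.subset_univ A)
  · intro A _ B _ h
    exact Finset.map_injective _ h
  · intro B hB
    rw [Finset.mem_powerset] at hB
    have hB' : B ⊆ Finset.univ.map ⟨G.ends, hinj⟩ := by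
      convert hB
      exact hE.symm
    obtain ⟨A, _, hA⟩ := Finset.subset_map_iff.mp hB'
    exact ⟨A, Finset.mem_univ _, hA.symm⟩
  · intro A _
    have hg := G.fromEdgeSet_map hinj A
    by_cases h : (G.sub A).Connected
    · rw [if_pos h, if_pos (by rw [hg]; exact h), Finset.card_map]
      congr 2
      rw [← hcard]
    · rw [if_neg h, if_neg (by rw [hg]; exact h)]

end MG

end Pool.Agent.RELD
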