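import Pool.Agent.RELD.CMB

/-! # The connected sum of the comb graph -/

open Polynomial

namespace Pool.Agent.RELD

section

variable {R S : Type*} [CommRing R] [CommRing S] (f : R →+* S) (Q w z : R)

lemma map_rI (j : ℕ) : rI (f Q) (f w) (f z) j =
    (f (rI Q w z j).1, f (rI Q w z j).2.1, f (rI Q w z j).2.2) := by
  induction j with
  | zero => simp [rI]
  | succ j ih => simp [rI, ih]

lemma map_rJ (j : ℕ) : rJ (f Q) (f w) (f z) j = (f (rJ Q w z j).1, f (rJ Q w z j).2) := by
  induction j with
  | zero => simp [rJ]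
  | succ j ih => simp [rJ, ih]

lemma map_al (M r : ℕ) : al M r (f Q) (f w) (f z) = f (al M r Q w z) := by
  simp [al, sall, suv, map_rI, map_rJ]

lemma map_be (M r : ℕ) : be M r (f Q) (f w) (f z) = f (be M r Q w z) := by
  simp [be, suh, shv, s0, map_rI, map_rJ, map_ofNat]

end

namespace MG

lemma cc_Comb (k M r : ℕ) (w z : ℂ) :
    (Comb k M r).cc (cw w z) (fun _ => 1) = al M r 0 w z ^ k - be M r 0 w z ^ k := by
  have hal : ∀ x : ℂ, (al M r (X : ℂ[X]) (C w) (C z)).eval x = al M r x w z := by
    intro x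
    have h := map_al (evalRingHom x) (X : ℂ[X]) (C w) (C z) M r
    simp only [coe_evalRingHom, eval_X, eval_C] at h
    exact h.symm
  have hbe : ∀ x : ℂ, (be M r (X : ℂ[X]) (C w) (C z)).eval x = be M r x w z := by
    intro x
    have h := map_be (evalRingHom x) (X : ℂ[X]) (C w) (C z) M r
    simp only [coe_evalRingHom, eval_X, eval_C] at h
    exact h.symm
  have h1 := (Comb k M r).cc_eq (cw (C w) (C z)) (fun _ => 1)
    (X * (al M r (X : ℂ[X]) (C w) (C z) ^ k + (X - 1) * be M r (X : ℂ[X]) (C w) (C z) ^ k))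
    (fun Q => by
      have h2 : (fun e : (Comb k M r).E => (cw (C w) (C z) e : ℂ[X]).eval (Q : ℂ)) = cw w z := by
        funext e
        rw [cw, cw]
        rcases e.2.2 with j | j
        · simp only [Sum.elim_inl, eval_C]
        · simp only [Sum.elim_inr, eval_C]
      rw [h2]
      simp only [eval_one, eval_mul, eval_X, eval_add, eval_pow, eval_sub, hal, hbe]
      rw [potts_Comb]
      ring)
  have h2 : (fun e : (Comb k M r).E => (cw (C w) (C z) e : ℂ[X]).eval 0) = cw w z := by
    funext e
    rw [cw, cw]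
    rcases e.2.2 with j | j
    · simp only [Sum.elim_inl, eval_C]
    · simp only [Sum.elim_inr, eval_C]
  rw [h2, coeff_X_mul, coeff_zero_eq_eval_zero] at h1
  simp only [eval_one, eval_mul, eval_X, eval_add, eval_pow, eval_sub, hal, hbe] at h1
  rw [h1]
  ring

end MG

end Pool.Agent.RELD
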