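import Pool.Agent.RELD.BRG

/-! # The graphs have no loops and the last one has no parallel edges -/

namespace Pool.Agent.RELD

namespace MG

variable {G : MG}

lemma Loopless.par (h : G.Loopless) (m : G.E → ℕ) : (G.Par m).Loopless := fun p => h p.1

lemma loopless_Sub : G.Sub.Loopless := by
  rintro ⟨e, b⟩ h
  cases b
  · have h1 : (Sum.inl (G.s e) : G.V ⊕ G.E) = Sum.inr e := h
    cases h1
  · have h1 : (Sum.inr e : G.V ⊕ G.E) = Sum.inl (G.t e) := h
    cases h1

lemma Loopless.subN (h : G.Loopless) (j : ℕ) : (G.SubN j).Loopless := by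
  cases j with
  | zero => exact h
  | succ j => exact loopless_Sub

lemma ends_Sub_injective (h : G.Loopless) : Function.Injective G.Sub.ends := by
  rintro ⟨e, b⟩ ⟨f, c⟩ hh
  have h1 : ∀ (e : G.E) (b : Bool), G.Sub.ends (e, b) =
      s((Sum.inr e : G.V ⊕ G.E), Sum.inl (if b then G.t e else G.s e)) := by
    intro e b
    cases b
    · exact Sym2.eq_swap
    · rfl
  rw [h1, h1] at hh
  have hh' := (Sym2.eq_iff (α := G.V ⊕ G.E)).mp hh
  rcases hh' with ⟨h2, h3⟩ | ⟨h2, h3⟩
  · have h4 : e = f := Sum.inr_injective h2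
    subst h4
    have h5 := Sum.inl_injective h3
    cases b <;> cases c
    · rfl
    · exact absurd h5 (h e)
    · exact absurd h5.symm (h e)
    · rfl
  · cases h2

lemma cons_ne_snoc {C : Type} {r : ℕ} {x : Fin r → C} (hx : Function.Injective x) {a b : C}
    (hab : a ≠ b) (ha : ∀ i, x i ≠ a) (hb : ∀ i, x i ≠ b) (j : Fin (r + 1)) :
    (Fin.cons a x : Fin (r + 1) → C) j ≠ (Fin.snoc x b : Fin (r + 1) → C) j := by
  have hs : ∀ i : Fin (r + 1), (Fin.snoc x b : Fin (r + 1) → C) i =
      if h : i.1 < r then x ⟨i.1, h⟩ else b := by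
    intro i
    simp only [Fin.snoc]
    split_ifs <;> rfl
  rw [hs]
  induction j using Fin.cases with
  | zero =>
    rw [Fin.cons_zero]
    split_ifs with h
    · exact (ha _).symm
    · exact hab
  | succ i =>
    rw [Fin.cons_succ]
    split_ifs with h
    · intro h1
      have h2 := congrArg Fin.val (hx h1)
      simp only [Fin.val_succ] at h2
      omega
    · exact hb i

lemma nd_injective {k M r : ℕ} (i : Fin k) (m : Fin M) :
    Function.Injective (nd i m : Fin r → _) := by
  intro j j' h
  simp only [nd, Sum.inr.injEq, Prod.mk.injEq, true_and] at h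
  exact h

lemma loopless_Comb (k M r : ℕ) : (Comb k M r).Loopless := by
  rintro ⟨i, m, j | j⟩ h
  · refine cons_ne_snoc (nd_injective i m) (a := Sum.inl false) (b := Sum.inl true) ?_ ?_ ?_ j h
    · simp
    · intro i'; simp [nd]
    · intro i'; simp [nd]
  · have h1 : nd i m j = Sum.inr (i, Sum.inl ()) := h
    simp [nd] at h1

lemma loopless_pre (k M r K j n : ℕ) :
    ((((Comb k M r).Par (mu k M r K)).SubN j).Par fun _ => n).Loopless :=
  (((loopless_Comb k M r).par _).subN j).par _

lemma srel_Fin5 (k M r K j n : ℕ) (q : ℂ) :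
    srel ((Fin5 k M r K j n).sub Finset.univ) q = (Fin5 k M r K j n).rel q :=
  srel_sub _ loopless_Sub (ends_Sub_injective (loopless_pre k M r K j n)) q

end MG

end Pool.Agent.RELD
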