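import Pool.Agent.RELD.PTS
import Pool.Agent.RELD.LPL

/-! # The choice of the parameters and the density theorem -/

open Filter Topology

namespace Pool.Agent.RELD

lemma exists_pow_re_nonpos {η : ℂ} (h : η.im ≠ 0) : ∃ n : ℕ, 1 ≤ n ∧ (η ^ n).re ≤ 0 := by
  set θ := Complex.arg η with hθ
  have h0 : θ ≠ 0 := by
    intro h1
    rw [hθ, Complex.arg_eq_zero_iff] at h1
    exact h h1.2
  have hθ1 : |θ| ≤ Real.pi := Complex.abs_arg_le_pi η
  have hθ0 : 0 < |θ| := abs_pos.mpr h0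
  have hpi := Real.pi_pos
  refine ⟨⌈Real.pi / (2 * |θ|)⌉₊, ?_, ?_⟩
  · rw [Nat.one_le_ceil_iff]; positivity
  · set n := ⌈Real.pi / (2 * |θ|)⌉₊ with hn
    have h1 : Real.pi / 2 ≤ n * |θ| := by
      have h2 := Nat.le_ceil (Real.pi / (2 * |θ|))
      rw [← hn, div_le_iff₀ (by positivity)] at h2
      linarith
    have h3 : n * |θ| ≤ Real.pi + Real.pi / 2 := by
      have h2 := (Nat.ceil_lt_add_one (show 0 ≤ Real.pi / (2 * |θ|) by positivity)).le
      rw [← hn] at h2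
      calc (n : ℝ) * |θ| ≤ (Real.pi / (2 * |θ|) + 1) * |θ| :=
            mul_le_mul_of_nonneg_right h2 hθ0.le
        _ = Real.pi / 2 + |θ| := by field_simp
        _ ≤ _ := by linarith
    have hcos : Real.cos (n * θ) ≤ 0 := by
      rw [← Real.cos_abs, abs_mul, Nat.abs_cast]
      exact Real.cos_nonpos_of_pi_div_two_le_of_le h1 h3
    have hpow : η ^ n = ((‖η‖ ^ n : ℝ) : ℂ) * Complex.exp (((n * θ : ℝ) : ℂ) * Complex.I) := by
      conv_lhs => rw [← Complex.norm_mul_exp_arg_mul_I η]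
      rw [mul_pow, ← Complex.exp_nat_mul, ← hθ]
      push_cast
      ring_nf
    rw [hpow, Complex.re_ofReal_mul, Complex.exp_ofReal_mul_I_re]
    exact mul_nonpos_of_nonneg_of_nonpos (by positivity) hcos

lemma choice {η : ℂ} (h : η.im ≠ 0) :
    ∃ n j : ℕ, 1 ≤ n ∧ ‖1 - (1 - η ^ n) / 2 ^ j‖ < 1 := by
  obtain ⟨n, hn, hre⟩ := exists_pow_re_nonpos h
  set u : ℂ := 1 - η ^ n with hu
  have hu1 : 1 ≤ u.re := by rw [hu, Complex.sub_re, Complex.one_re]; linarith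
  obtain ⟨j, hj⟩ := exists_pow_lt_of_lt_one (show (0 : ℝ) < 2 / (‖u‖ ^ 2 + 1) by positivity)
    (show (1 / 2 : ℝ) < 1 by norm_num)
  refine ⟨n, j, hn, ?_⟩
  set t : ℝ := (1 / 2) ^ j with ht
  have ht0 : 0 < t := by positivity
  have h1 : (1 : ℂ) - u / 2 ^ j = 1 - (t : ℂ) * u := by
    rw [ht]; push_cast; rw [div_pow, one_pow]; ring
  rw [h1]
  have h2 : t * ‖u‖ ^ 2 < 2 := by
    rw [lt_div_iff₀ (by positivity)] at hj
    nlinarith
  have h3 : ‖1 - (t : ℂ) * u‖ ^ 2 = 1 - 2 * t * u.re + t * (t * ‖u‖ ^ 2) := by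
    rw [Complex.sq_norm, Complex.sq_norm, Complex.normSq_apply, Complex.normSq_apply]
    simp only [Complex.sub_re, Complex.sub_im, Complex.one_re, Complex.one_im,
      Complex.re_ofReal_mul, Complex.im_ofReal_mul]
    ring
  have h4 : ‖1 - (t : ℂ) * u‖ ^ 2 < 1 ^ 2 := by
    rw [h3]
    nlinarith
  exact lt_of_pow_lt_pow_left₀ 2 zero_le_one h4

lemma strict_Wt (j n : ℕ) {q : ℂ} (hq : q ≠ 0) : HasStrictDerivAt (MG.Wt j n)
    ((n : ℂ) * ((1 + q) / (2 * q)) ^ (n - 1) * (-1 / (2 * q ^ 2)) / 2 ^ j) q := by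
  have h1 : HasStrictDerivAt (fun q : ℂ => (1 + q) / (2 * q)) (-1 / (2 * q ^ 2)) q := by
    have a1 : HasStrictDerivAt (fun q : ℂ => 1 + q) 1 q := (hasStrictDerivAt_id q).const_add 1
    have a2 : HasStrictDerivAt (fun q : ℂ => 2 * q) (2 * 1) q :=
      (hasStrictDerivAt_id q).const_mul 2
    have a3 := a1.fun_div a2 (mul_ne_zero two_ne_zero hq)
    have h5 : -1 / (2 * q ^ 2) = (1 * (2 * q) - (1 + q) * (2 * 1)) / (2 * q) ^ 2 := by
      field_simp
      ring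
    rw [h5]
    exact a3
  have h2 := ((((h1.fun_pow n).const_sub 1).div_const (2 ^ j)).const_sub 1)
  have h6 : (n : ℂ) * ((1 + q) / (2 * q)) ^ (n - 1) * (-1 / (2 * q ^ 2)) / 2 ^ j =
      -(-(n * ((1 + q) / (2 * q)) ^ (n - 1) * (-1 / (2 * q ^ 2))) / 2 ^ j) := by ring
  rw [h6]
  exact h2

/-- the reliability roots of the connected simple graphs -/
def Zsimple : Set ℂ :=
  {q | ∃ (V : Type) (_ : Fintype V) (S : SimpleGraph V), S.Connected ∧ srel S q = 0}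

/-- the reliability roots of the connected multigraphs -/
def Zmulti : Set ℂ :=
  {q | ∃ G : MG, G.Loopless ∧ (G.sub Finset.univ).Connected ∧ G.rel q = 0}

lemma key {q₀ : ℂ} (h : q₀.im ≠ 0) {O : Set ℂ} (hO : IsOpen O) (hq₀ : q₀ ∈ O) :
    ∃ (k M r K j n : ℕ), ∃ q ∈ O, ((MG.Fin5 k M r K j n).sub Finset.univ).Connected ∧
      (MG.Fin5 k M r K j n).rel q = 0 := by
  have hq0 : q₀ ≠ 0 := by rintro rfl; exact h rfl
  have hη : ((1 + q₀) / (2 * q₀)).im ≠ 0 := by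
    have h1 : (1 + q₀) / (2 * q₀) = ((1 / 2 : ℝ) : ℂ) * q₀⁻¹ + ((1 / 2 : ℝ) : ℂ) := by
      push_cast
      field_simp
    rw [h1, Complex.add_im, Complex.im_ofReal_mul, Complex.ofReal_im, add_zero, Complex.inv_im]
    have h2 : Complex.normSq q₀ ≠ 0 := fun h3 => hq0 (Complex.normSq_eq_zero.mp h3)
    exact mul_ne_zero (by norm_num) (div_ne_zero (neg_ne_zero.mpr h) h2)
  have hη0 : (1 + q₀) / (2 * q₀) ≠ 0 := by
    intro h1
    rw [h1] at hη
    exact hη rfl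
  obtain ⟨n, j, hn, hlt⟩ := choice hη
  have hopen : IsOpen (O ∩ {q : ℂ | q.im ≠ 0}) :=
    hO.inter (isOpen_ne_fun Complex.continuous_im continuous_const)
  obtain ⟨ε, hε, hball⟩ := Metric.isOpen_iff.mp hopen q₀ ⟨hq₀, h⟩
  have hne : ∀ q ∈ Metric.ball q₀ ε, q ≠ 0 := by
    rintro q hq rfl
    exact (hball hq).2 rfl
  have hW' : (n : ℂ) * ((1 + q₀) / (2 * q₀)) ^ (n - 1) * (-1 / (2 * q₀ ^ 2)) / 2 ^ j ≠ 0 := by
    have hn0 : (n : ℂ) ≠ 0 := Nat.cast_ne_zero.mpr (by omega)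
    refine div_ne_zero (mul_ne_zero (mul_ne_zero hn0 (pow_ne_zero _ hη0)) ?_)
      (pow_ne_zero _ two_ne_zero)
    exact div_ne_zero (by norm_num) (mul_ne_zero two_ne_zero (pow_ne_zero _ hq0))
  obtain ⟨r, K, M, k, hk, ⟨q, hq, heq⟩, q', hq', hlt', hneq⟩ :=
    exists_zero (strict_Wt j n hq0) hW' hlt Metric.isOpen_ball
      (convex_ball q₀ ε).isPreconnected (Metric.mem_ball_self hε)
      (fun q hq => (strict_Wt j n (hne q hq)).hasDerivAt.differentiableAt.differentiableWithinAt)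
  obtain ⟨N1, N2, N3, hrel⟩ := MG.rel_Fin5 k M r K j n
  refine ⟨k, M, r, K, j, n, q, (hball hq).1, ?_, ?_⟩
  · apply MG.connected_of_rel_ne (q := q')
    have hq'0 := hne q' hq'
    rw [hrel q' hq'0]
    have e1 : 1 - q' ≠ 0 := by
      intro h1
      have h2 : q' = 1 := (sub_eq_zero.mp h1).symm
      apply (hball hq').2
      rw [h2, Complex.one_im]
    have e3 : (2 : ℂ) ^ j * (2 * q') ^ n ≠ 0 :=
      mul_ne_zero (pow_ne_zero _ two_ne_zero) (pow_ne_zero _ (mul_ne_zero two_ne_zero hq'0))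
    have e2 : (1 + q') ^ n - (2 * q') ^ n ≠ 0 := by
      intro h1
      have h2 : ((1 + q') / (2 * q')) ^ n = 1 := by
        rw [div_pow, div_eq_one_iff_eq (pow_ne_zero _ (mul_ne_zero two_ne_zero hq'0))]
        exact sub_eq_zero.mp h1
      rw [MG.Wt, h2, sub_self, zero_div, sub_zero, norm_one] at hlt'
      exact lt_irrefl _ hlt'
    exact mul_ne_zero (mul_ne_zero (mul_ne_zero (pow_ne_zero _ e1) (pow_ne_zero _ e2))
      (pow_ne_zero _ e3)) (sub_ne_zero.mpr hneq)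
  · rw [hrel q (hne q hq), heq, sub_self, mul_zero]

/-- every non-empty open set contains a reliability root of a connected simple graph -/
theorem dense_Zsimple : Dense Zsimple := by
  rw [dense_iff_inter_open]
  intro O hO hne
  have hd : Dense {q : ℂ | q.im ≠ 0} :=
    (dense_compl_singleton (0 : ℝ)).preimage Complex.isOpenMap_im
  obtain ⟨q₀, hq₀, him⟩ := hd.inter_open_nonempty O hO hne
  obtain ⟨k, M, r, K, j, n, q, hq, hc, h0⟩ := key him hO hq₀
  refine ⟨q, hq, (MG.Fin5 k M r K j n).V, inferInstance,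
    (MG.Fin5 k M r K j n).sub Finset.univ, hc, ?_⟩
  rw [MG.srel_Fin5, h0]

theorem dense_Zmulti : Dense Zmulti := by
  rw [dense_iff_inter_open]
  intro O hO hne
  have hd : Dense {q : ℂ | q.im ≠ 0} :=
    (dense_compl_singleton (0 : ℝ)).preimage Complex.isOpenMap_im
  obtain ⟨q₀, hq₀, him⟩ := hd.inter_open_nonempty O hO hne
  obtain ⟨k, M, r, K, j, n, q, hq, hc, h0⟩ := key him hO hq₀
  exact ⟨q, hq, MG.Fin5 k M r K j n, MG.loopless_Sub, hc, h0⟩

end Pool.Agent.RELD
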