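import Pool.Agent.RELD.CCC

/-! # The values at `Q = 0`, `z = 0` and the comparison of the two sums -/

open Polynomial Filter Topology

namespace Pool.Agent.RELD

section

variable (w : ℂ)

lemma rI_zero (j : ℕ) : (rI 0 w 0 j).1 = (-1) ^ j * ((2 - w) ^ (j + 1) - (1 - w) ^ (j + 1)) ∧
    (rI 0 w 0 j).2.2 = -((-1) ^ j * (1 - w) ^ (j + 1)) := by
  induction j with
  | zero => constructor <;> (simp only [rI]; ring)
  | succ j ih =>
    constructor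
    · simp only [rI]; rw [ih.1, ih.2]; ring
    · simp only [rI]; rw [ih.2]; ring

lemma rI_zero_B (j : ℕ) : (rI 0 w 0 (j + 1)).2.1 = (1 - w) * (rI 0 w 0 j).1 := by
  simp only [rI]; ring

lemma rJ_zero (j : ℕ) : (rJ 0 w 0 j).1 = (-1) ^ j * (2 - w) ^ j := by
  induction j with
  | zero => simp only [rJ]; ring
  | succ j ih => simp only [rJ]; rw [ih]; ring

lemma rJ_zero_B (j : ℕ) : (rJ 0 w 0 (j + 1)).2 = (1 - w) * (rJ 0 w 0 j).1 := by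
  simp only [rJ]; ring

lemma s0_zero (r : ℕ) : s0 0 w 0 r = (-1) ^ r * ((2 - w) ^ (r + 1) - (1 - w) ^ (r + 1)) :=
  (rI_zero w r).1

lemma suv_zero (r : ℕ) : suv 0 w 0 r = (-1) ^ r * ((2 - w) ^ (r + 1) - 2 * (1 - w) ^ (r + 1)) := by
  rw [suv, (rI_zero w r).1, (rI_zero w r).2]; ring

lemma suh_zero (r : ℕ) : suh 0 w 0 (r + 1) = (-1) ^ (r + 1) * (2 - w) ^ (r + 1) := by
  rw [suh, rI_zero_B, (rI_zero w (r + 1)).1, (rI_zero w r).1]; ring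

lemma shv_zero (r : ℕ) : shv 0 w 0 r = (-1) ^ r * (2 - w) ^ r := rJ_zero w r

lemma sall_zero (r : ℕ) : sall 0 w 0 (r + 1) = (-1) ^ (r + 1) * (2 - w) ^ r := by
  rw [sall, rJ_zero_B, rJ_zero, rJ_zero]; ring

end

section

variable (w : ℂ)

lemma cont_rI (j : ℕ) : Continuous (fun z => (rI 0 w z j).1) ∧
    Continuous (fun z => (rI 0 w z j).2.1) ∧ Continuous fun z => (rI 0 w z j).2.2 := by
  induction j with
  | zero => exact ⟨continuous_const, continuous_const, continuous_const⟩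
  | succ j ih =>
    obtain ⟨h1, h2, h3⟩ := ih
    simp only [rI]
    refine ⟨?_, ?_, ?_⟩ <;> fun_prop

lemma cont_rJ (j : ℕ) : Continuous (fun z => (rJ 0 w z j).1) ∧
    Continuous (fun z => (rJ 0 w z j).2) := by
  induction j with
  | zero => exact ⟨continuous_const, continuous_const⟩
  | succ j ih =>
    obtain ⟨h1, h2⟩ := ih
    simp only [rJ]
    refine ⟨?_, ?_⟩ <;> fun_prop

lemma cont_s0 (r : ℕ) : Continuous fun z => s0 0 w z r := (cont_rI w r).1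
lemma cont_suv (r : ℕ) : Continuous fun z => suv 0 w z r := (cont_rI w r).1.add (cont_rI w r).2.2
lemma cont_suh (r : ℕ) : Continuous fun z => suh 0 w z r := (cont_rI w r).1.add (cont_rI w r).2.1
lemma cont_shv (r : ℕ) : Continuous fun z => shv 0 w z r := (cont_rJ w r).1
lemma cont_sall (r : ℕ) : Continuous fun z => sall 0 w z r := (cont_rJ w r).1.add (cont_rJ w r).2

end

/-- powers: a sum of `M`-th powers of smaller numbers is eventually smaller -/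
lemma pow_small {a c : ℝ} (ha : 0 ≤ a) (h : a < c) (t : ℝ) (ht : 0 < t) :
    ∀ᶠ M : ℕ in atTop, a ^ M < t * c ^ M := by
  have hc : 0 < c := ha.trans_lt h
  have h1 : Tendsto (fun M : ℕ => (a / c) ^ M) atTop (𝓝 0) :=
    tendsto_pow_atTop_nhds_zero_of_lt_one (by positivity) (by rw [div_lt_one hc]; exact h)
  filter_upwards [h1.eventually (gt_mem_nhds ht)] with M hM
  rw [div_pow, div_lt_iff₀ (by positivity)] at hM
  exact hM

lemma al_gt {w z : ℂ} {r : ℕ} (h1 : ‖sall 0 w z r‖ < ‖suv 0 w z r‖)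
    (h2 : ‖suh 0 w z r‖ < ‖suv 0 w z r‖) (h3 : ‖shv 0 w z r‖ < ‖suv 0 w z r‖)
    (h4 : ‖s0 0 w z r‖ < ‖suv 0 w z r‖) :
    ∀ᶠ M : ℕ in atTop, ‖be M r 0 w z‖ < ‖al M r 0 w z‖ := by
  filter_upwards [pow_small (norm_nonneg _) h1 (1 / 5) (by norm_num),
    pow_small (norm_nonneg _) h2 (1 / 5) (by norm_num),
    pow_small (norm_nonneg _) h3 (1 / 5) (by norm_num),
    pow_small (norm_nonneg _) h4 (1 / 5) (by norm_num)] with M e1 e2 e3 e4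
  have hb : ‖be M r 0 w z‖ ≤ ‖suh 0 w z r‖ ^ M + ‖shv 0 w z r‖ ^ M + 2 * ‖s0 0 w z r‖ ^ M := by
    rw [be]
    refine (norm_add_le _ _).trans (add_le_add ((norm_add_le _ _).trans ?_) ?_)
    · rw [norm_pow, norm_pow]
    · rw [norm_mul, norm_pow]; norm_num
  have ha : ‖suv 0 w z r‖ ^ M - ‖sall 0 w z r‖ ^ M ≤ ‖al M r 0 w z‖ := by
    have h := norm_sub_norm_le (suv 0 w z r ^ M) (sall 0 w z r ^ M)
    rw [norm_pow, norm_pow] at h
    refine h.trans (le_of_eq ?_)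
    rw [← norm_neg, al]
    congr 1; ring
  linarith

lemma al_lt {w z : ℂ} {r : ℕ} (h1 : ‖sall 0 w z r‖ < ‖s0 0 w z r‖)
    (h2 : ‖suh 0 w z r‖ < ‖s0 0 w z r‖) (h3 : ‖shv 0 w z r‖ < ‖s0 0 w z r‖)
    (h4 : ‖suv 0 w z r‖ < ‖s0 0 w z r‖) :
    ∀ᶠ M : ℕ in atTop, ‖al M r 0 w z‖ < ‖be M r 0 w z‖ := by
  filter_upwards [pow_small (norm_nonneg _) h1 (1 / 4) (by norm_num),
    pow_small (norm_nonneg _) h2 (1 / 4) (by norm_num),
    pow_small (norm_nonneg _) h3 (1 / 4) (by norm_num),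
    pow_small (norm_nonneg _) h4 (1 / 4) (by norm_num)] with M e1 e2 e3 e4
  have ha : ‖al M r 0 w z‖ ≤ ‖sall 0 w z r‖ ^ M + ‖suv 0 w z r‖ ^ M := by
    rw [al]
    refine (norm_add_le _ _).trans (add_le_add ?_ ?_)
    · rw [norm_pow]
    · rw [norm_mul, norm_pow]; norm_num
  have hb : 2 * ‖s0 0 w z r‖ ^ M - (‖suh 0 w z r‖ ^ M + ‖shv 0 w z r‖ ^ M) ≤ ‖be M r 0 w z‖ := by
    have h := norm_sub_norm_le (2 * s0 0 w z r ^ M) (suh 0 w z r ^ M + shv 0 w z r ^ M)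
    have h5 : ‖suh 0 w z r ^ M + shv 0 w z r ^ M‖ ≤ ‖suh 0 w z r‖ ^ M + ‖shv 0 w z r‖ ^ M := by
      refine (norm_add_le _ _).trans ?_
      rw [norm_pow, norm_pow]
    have h6 : ‖(2 : ℂ) * s0 0 w z r ^ M‖ = 2 * ‖s0 0 w z r‖ ^ M := by
      rw [norm_mul, norm_pow]; norm_num
    have h7 : ‖2 * s0 0 w z r ^ M - (suh 0 w z r ^ M + shv 0 w z r ^ M)‖ = ‖be M r 0 w z‖ := by
      rw [← norm_neg, be]
      congr 1; ring
    rw [h6, h7] at h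
    linarith
  have hn := pow_nonneg (norm_nonneg (s0 0 w z r)) M
  linarith

lemma tendsto_pow_K {w : ℂ} (hw : ‖w‖ < 1) : Tendsto (fun K : ℕ => w ^ K) atTop (𝓝 0) :=
  tendsto_pow_atTop_nhds_zero_of_norm_lt_one hw

lemma ev_K {w : ℂ} (hw : ‖w‖ < 1) {f g : ℂ → ℂ} (hf : Continuous f) (hg : Continuous g)
    (h : ‖f 0‖ < ‖g 0‖) : ∀ᶠ K : ℕ in atTop, ‖f (w ^ K)‖ < ‖g (w ^ K)‖ := by
  have h1 : ∀ᶠ z in 𝓝 (0 : ℂ), ‖f z‖ < ‖g z‖ :=
    (isOpen_lt hf.norm hg.norm).mem_nhds h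
  exact (tendsto_pow_K hw).eventually h1

lemma norm_two_sub {w : ℂ} (hw : ‖w‖ < 1) : 1 < ‖2 - w‖ := by
  have h := norm_sub_norm_le (2 : ℂ) w
  have h2 : ‖(2 : ℂ)‖ = 2 := by norm_num
  rw [h2] at h
  linarith

/-- the case where the `(r+2)`-nd power of `(1-w)/(2-w)` is negative -/
lemma ev_gt {w : ℂ} (hw : ‖w‖ < 1) {r : ℕ} {x : ℝ} (hx : 0 < x)
    (h : ((1 - w) / (2 - w)) ^ (r + 2) = -(x : ℂ)) :
    ∀ᶠ K : ℕ in atTop, ∀ᶠ M : ℕ in atTop,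
      ‖be M (r + 1) 0 w (w ^ K)‖ < ‖al M (r + 1) 0 w (w ^ K)‖ := by
  have hG := norm_two_sub hw
  have hG0 : (2 - w) ≠ 0 := by
    intro h0
    rw [h0, norm_zero] at hG
    linarith
  have hg : (1 - w) ^ (r + 2) = -(x : ℂ) * (2 - w) ^ (r + 2) := by
    rw [div_pow, div_eq_iff (pow_ne_zero _ hG0)] at h
    exact h
  have n1 : ‖((-1 : ℂ)) ^ (r + 1)‖ = 1 := by rw [norm_pow, norm_neg, norm_one, one_pow]
  have hs0 : ‖s0 0 w 0 (r + 1)‖ = (1 + x) * ‖2 - w‖ ^ (r + 2) := by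
    rw [s0_zero, norm_mul, n1, one_mul, hg, show (2 - w) ^ (r + 1 + 1) - -(x : ℂ) * (2 - w) ^ (r + 2)
      = ((1 + x : ℝ) : ℂ) * (2 - w) ^ (r + 2) by push_cast; ring, norm_mul, norm_pow,
      Complex.norm_real, Real.norm_eq_abs, abs_of_pos (by positivity)]
  have hsuv : ‖suv 0 w 0 (r + 1)‖ = (1 + 2 * x) * ‖2 - w‖ ^ (r + 2) := by
    rw [suv_zero, norm_mul, n1, one_mul, hg,
      show (2 - w) ^ (r + 1 + 1) - 2 * (-(x : ℂ) * (2 - w) ^ (r + 2))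
      = ((1 + 2 * x : ℝ) : ℂ) * (2 - w) ^ (r + 2) by push_cast; ring, norm_mul, norm_pow,
      Complex.norm_real, Real.norm_eq_abs, abs_of_pos (by positivity)]
  have hsuh : ‖suh 0 w 0 (r + 1)‖ = ‖2 - w‖ ^ (r + 1) := by
    rw [suh_zero, norm_mul, n1, one_mul, norm_pow]
  have hshv : ‖shv 0 w 0 (r + 1)‖ = ‖2 - w‖ ^ (r + 1) := by
    rw [shv_zero, norm_mul, n1, one_mul, norm_pow]
  have hsall : ‖sall 0 w 0 (r + 1)‖ = ‖2 - w‖ ^ r := by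
    rw [sall_zero, norm_mul, n1, one_mul, norm_pow]
  have e1 : ‖2 - w‖ ^ (r + 1) < ‖2 - w‖ ^ (r + 2) := pow_lt_pow_right₀ hG (by omega)
  have e2 : ‖2 - w‖ ^ r < ‖2 - w‖ ^ (r + 2) := pow_lt_pow_right₀ hG (by omega)
  have e3 : 0 < ‖2 - w‖ ^ (r + 2) := by positivity
  filter_upwards [ev_K hw (cont_sall w (r + 1)) (cont_suv w (r + 1)) (by
      rw [hsall, hsuv]; nlinarith),
    ev_K hw (cont_suh w (r + 1)) (cont_suv w (r + 1)) (by rw [hsuh, hsuv]; nlinarith),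
    ev_K hw (cont_shv w (r + 1)) (cont_suv w (r + 1)) (by rw [hshv, hsuv]; nlinarith),
    ev_K hw (cont_s0 w (r + 1)) (cont_suv w (r + 1)) (by rw [hs0, hsuv]; nlinarith)]
    with K k1 k2 k3 k4
  exact al_gt k1 k2 k3 k4

/-- the case where the `(r+2)`-nd power of `(1-w)/(2-w)` is positive and small -/
lemma ev_lt {w : ℂ} (hw : ‖w‖ < 1) {r : ℕ} {x : ℝ} (hx : 0 < x) (hx2 : x < 2 / 3)
    (hx3 : 1 < ‖2 - w‖ * (1 - x)) (h : ((1 - w) / (2 - w)) ^ (r + 2) = (x : ℂ)) :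
    ∀ᶠ K : ℕ in atTop, ∀ᶠ M : ℕ in atTop,
      ‖al M (r + 1) 0 w (w ^ K)‖ < ‖be M (r + 1) 0 w (w ^ K)‖ := by
  have hG := norm_two_sub hw
  have hG0 : (2 - w) ≠ 0 := by
    intro h0
    rw [h0, norm_zero] at hG
    linarith
  have hg : (1 - w) ^ (r + 2) = (x : ℂ) * (2 - w) ^ (r + 2) := by
    rw [div_pow, div_eq_iff (pow_ne_zero _ hG0)] at h
    exact h
  have n1 : ‖((-1 : ℂ)) ^ (r + 1)‖ = 1 := by rw [norm_pow, norm_neg, norm_one, one_pow]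
  have hs0 : ‖s0 0 w 0 (r + 1)‖ = (1 - x) * ‖2 - w‖ ^ (r + 2) := by
    rw [s0_zero, norm_mul, n1, one_mul, hg, show (2 - w) ^ (r + 1 + 1) - (x : ℂ) * (2 - w) ^ (r + 2)
      = ((1 - x : ℝ) : ℂ) * (2 - w) ^ (r + 2) by push_cast; ring, norm_mul, norm_pow,
      Complex.norm_real, Real.norm_eq_abs, abs_of_pos (by linarith)]
  have hsuv : ‖suv 0 w 0 (r + 1)‖ = |1 - 2 * x| * ‖2 - w‖ ^ (r + 2) := by
    rw [suv_zero, norm_mul, n1, one_mul, hg,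
      show (2 - w) ^ (r + 1 + 1) - 2 * ((x : ℂ) * (2 - w) ^ (r + 2))
      = ((1 - 2 * x : ℝ) : ℂ) * (2 - w) ^ (r + 2) by push_cast; ring, norm_mul, norm_pow,
      Complex.norm_real, Real.norm_eq_abs]
  have hsuh : ‖suh 0 w 0 (r + 1)‖ = ‖2 - w‖ ^ (r + 1) := by
    rw [suh_zero, norm_mul, n1, one_mul, norm_pow]
  have hshv : ‖shv 0 w 0 (r + 1)‖ = ‖2 - w‖ ^ (r + 1) := by
    rw [shv_zero, norm_mul, n1, one_mul, norm_pow]
  have hsall : ‖sall 0 w 0 (r + 1)‖ = ‖2 - w‖ ^ r := by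
    rw [sall_zero, norm_mul, n1, one_mul, norm_pow]
  have hpos : 0 < ‖2 - w‖ ^ (r + 1) := by positivity
  have e1 : ‖2 - w‖ ^ (r + 1) < (1 - x) * ‖2 - w‖ ^ (r + 2) := by
    calc ‖2 - w‖ ^ (r + 1) = 1 * ‖2 - w‖ ^ (r + 1) := (one_mul _).symm
      _ < (‖2 - w‖ * (1 - x)) * ‖2 - w‖ ^ (r + 1) := by
        exact mul_lt_mul_of_pos_right hx3 hpos
      _ = _ := by ring
  have e2 : ‖2 - w‖ ^ r < ‖2 - w‖ ^ (r + 1) := pow_lt_pow_right₀ hG (by omega)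
  have e3 : 0 < ‖2 - w‖ ^ (r + 2) := by positivity
  have e4 : |1 - 2 * x| < 1 - x := by
    rw [abs_lt]; constructor <;> linarith
  filter_upwards [ev_K hw (cont_sall w (r + 1)) (cont_s0 w (r + 1)) (by
      rw [hsall, hs0]; linarith),
    ev_K hw (cont_suh w (r + 1)) (cont_s0 w (r + 1)) (by rw [hsuh, hs0]; linarith),
    ev_K hw (cont_shv w (r + 1)) (cont_s0 w (r + 1)) (by rw [hshv, hs0]; linarith),
    ev_K hw (cont_suv w (r + 1)) (cont_s0 w (r + 1)) (by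
      rw [hs0, hsuv]; exact mul_lt_mul_of_pos_right e4 e3)]
    with K k1 k2 k3 k4
  exact al_lt k1 k2 k3 k4

end Pool.Agent.RELD
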