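import Pool.Agent.RELD.OPS

/-! # The Potts sum of the comb graph -/

open Polynomial

namespace Pool.Agent.RELD

section

variable {C : Type} [Fintype C] [DecidableEq C]

omit [DecidableEq C] in
lemma sum_copies (T I : Type) [Fintype T] [DecidableEq T] [Fintype I] [DecidableEq I] (n : ℕ)
    (g : Fin n → (T → C) → (I → C) → ℂ) :
    (∑ σ : T ⊕ (Fin n × I) → C, ∏ i, g i (fun x => σ (Sum.inl x)) fun y => σ (Sum.inr (i, y))) =
      ∑ τ : T → C, ∏ i, ∑ ρ : I → C, g i τ ρ := by
  rw [← (Equiv.sumArrowEquivProdArrow T (Fin n × I) C).symm.sum_comp, Fintype.sum_prod_type]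
  refine Finset.sum_congr rfl fun τ _ => ?_
  rw [Fintype.prod_sum, ← (Equiv.curry (Fin n) I C).sum_comp]
  rfl

/-- the weight of a colouring of one path -/
def pth (w z : ℂ) {r : ℕ} (u v h : C) (x : Fin r → C) : ℂ :=
  (∏ j : Fin (r + 1), if (Fin.cons u x : Fin (r + 1) → C) j = (Fin.snoc x v : Fin (r + 1) → C) j
    then w else 1) * ∏ j : Fin r, if x j = h then z else 1

lemma sum_pth_zero (w z : ℂ) (u v h : C) :
    ∑ x : Fin 0 → C, pth w z u v h x = if u = v then w else 1 := by
  rw [Fintype.sum_unique, pth]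
  simp [Fin.snoc]

lemma sum_pth_succ (w z : ℂ) (r : ℕ) (u v h : C) :
    ∑ x : Fin (r + 1) → C, pth w z u v h x =
      ∑ c : C, (if u = c then w else 1) * (if c = h then z else 1) *
        ∑ x : Fin r → C, pth w z c v h x := by
  rw [← (Fin.consEquiv fun _ : Fin (r + 1) => C).sum_comp, Fintype.sum_prod_type]
  refine Finset.sum_congr rfl fun c _ => ?_
  rw [Finset.mul_sum]
  refine Finset.sum_congr rfl fun x _ => ?_
  change pth w z u v h (Fin.cons c x : Fin (r + 1) → C) = _
  have hA : (∏ j : Fin (r + 1 + 1), if (Fin.cons u (Fin.cons c x : Fin (r + 1) → C) :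
      Fin (r + 1 + 1) → C) j = (Fin.snoc (Fin.cons c x : Fin (r + 1) → C) v : Fin (r + 1 + 1) → C) j
      then w else 1) = (if u = c then w else 1) * ∏ j : Fin (r + 1),
      if (Fin.cons c x : Fin (r + 1) → C) j = (Fin.snoc x v : Fin (r + 1) → C) j then w else 1 := by
    rw [Fin.prod_univ_succ, ← Fin.cons_snoc_eq_snoc_cons]
    simp only [Fin.cons_zero, Fin.cons_succ]
  have hB : (∏ j : Fin (r + 1), if (Fin.cons c x : Fin (r + 1) → C) j = h then z else 1) =
      (if c = h then z else 1) * ∏ j : Fin r, if x j = h then z else 1 := by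
    rw [Fin.prod_univ_succ]
    simp only [Fin.cons_zero, Fin.cons_succ]
  rw [pth, pth, hA, hB]
  ring

/-- the sum over a path in terms of the recursion, `v ≠ h` -/
lemma sum_pth_I (w z : ℂ) (r : ℕ) (u v h : C) (hv : v ≠ h) :
    ∑ x : Fin r → C, pth w z u v h x =
      (rI (Fintype.card C : ℂ) w z r).1 +
        (rI (Fintype.card C : ℂ) w z r).2.1 * (if u = h then 1 else 0) +
        (rI (Fintype.card C : ℂ) w z r).2.2 * (if u = v then 1 else 0) := by
  induction r generalizing u with
  | zero =>
    rw [sum_pth_zero]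
    simp only [rI]
    split_ifs <;> ring
  | succ r ih =>
    rw [sum_pth_succ]
    simp_rw [ih]
    set A := (rI (Fintype.card C : ℂ) w z r).1 with hA
    set B := (rI (Fintype.card C : ℂ) w z r).2.1 with hB
    set E := (rI (Fintype.card C : ℂ) w z r).2.2 with hE
    have h1 : ∀ c : C, (if u = c then w else 1) * (if c = h then z else 1) *
        (A + B * (if c = h then 1 else 0) + E * (if c = v then 1 else 0)) =
        A + ((z - 1) * A + z * B) * (if c = h then 1 else 0) + E * (if c = v then 1 else 0) +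
        (w - 1) * (A + ((z - 1) * A + z * B) * (if u = h then 1 else 0) +
          E * (if u = v then 1 else 0)) * (if u = c then 1 else 0) := by
      intro c
      by_cases hc : c = h
      · subst hc
        have hcv : ¬ c = v := fun hh => hv hh.symm
        by_cases hu : u = c
        · subst hu
          simp only [if_true, hcv, if_false]; ring
        · simp only [if_true, hcv, if_false, hu]; ring
      · by_cases hu : u = c
        · subst hu
          simp only [if_true, hc, if_false]
          ring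
        · simp only [hc, if_false, hu]; ring
    simp_rw [h1]
    rw [Finset.sum_add_distrib, Finset.sum_add_distrib, Finset.sum_add_distrib, ← Finset.mul_sum,
      ← Finset.mul_sum, ← Finset.mul_sum, Finset.sum_const, Finset.card_univ, nsmul_eq_mul]
    simp only [Finset.sum_ite_eq, Finset.sum_ite_eq', Finset.mem_univ, if_true, mul_one]
    simp only [rI, ← hA, ← hB, ← hE]
    ring

/-- the sum over a path in terms of the recursion, `v = h` -/
lemma sum_pth_J (w z : ℂ) (r : ℕ) (u h : C) :
    ∑ x : Fin r → C, pth w z u h h x =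
      (rJ (Fintype.card C : ℂ) w z r).1 +
        (rJ (Fintype.card C : ℂ) w z r).2 * (if u = h then 1 else 0) := by
  induction r generalizing u with
  | zero =>
    rw [sum_pth_zero]
    simp only [rJ]
    split_ifs <;> ring
  | succ r ih =>
    rw [sum_pth_succ]
    simp_rw [ih]
    set A := (rJ (Fintype.card C : ℂ) w z r).1 with hA
    set B := (rJ (Fintype.card C : ℂ) w z r).2 with hB
    have h1 : ∀ c : C, (if u = c then w else 1) * (if c = h then z else 1) *
        (A + B * (if c = h then 1 else 0)) =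
        A + ((z - 1) * A + z * B) * (if c = h then 1 else 0) +
        (w - 1) * (A + ((z - 1) * A + z * B) * (if u = h then 1 else 0)) *
          (if u = c then 1 else 0) := by
      intro c
      by_cases hc : c = h
      · subst hc
        by_cases hu : u = c
        · subst hu
          simp only [if_true]; ring
        · simp only [if_true, if_false, hu]; ring
      · by_cases hu : u = c
        · subst hu
          simp only [if_true, hc, if_false]
          ring
        · simp only [hc, if_false, hu]; ring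
    simp_rw [h1]
    rw [Finset.sum_add_distrib, Finset.sum_add_distrib, ← Finset.mul_sum,
      ← Finset.mul_sum, Finset.sum_const, Finset.card_univ, nsmul_eq_mul]
    simp only [Finset.sum_ite_eq, Finset.sum_ite_eq', Finset.mem_univ, if_true, mul_one]
    simp only [rJ, ← hA, ← hB]
    ring

lemma sum_hub (w z : ℂ) (M r : ℕ) (u v : C) :
    ∑ h : C, (∑ x : Fin r → C, pth w z u v h x) ^ M =
      if u = v then al M r (Fintype.card C : ℂ) w z else be M r (Fintype.card C : ℂ) w z := by
  by_cases huv : u = v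
  · subst huv
    rw [if_pos rfl, al]
    have h1 : ∀ h : C, (∑ x : Fin r → C, pth w z u u h x) ^ M =
        suv (Fintype.card C : ℂ) w z r ^ M + (sall (Fintype.card C : ℂ) w z r ^ M -
          suv (Fintype.card C : ℂ) w z r ^ M) * (if u = h then 1 else 0) := by
      intro h
      by_cases hu : u = h
      · subst hu
        rw [sum_pth_J, if_pos rfl, sall]; ring
      · rw [sum_pth_I w z r u u h hu, if_neg hu, if_pos rfl, suv]; ring
    simp_rw [h1]
    rw [Finset.sum_add_distrib, ← Finset.mul_sum, Finset.sum_const, Finset.card_univ,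
      nsmul_eq_mul]
    simp only [Finset.sum_ite_eq, Finset.mem_univ, if_true]
    ring
  · rw [if_neg huv, be]
    have h1 : ∀ h : C, (∑ x : Fin r → C, pth w z u v h x) ^ M =
        s0 (Fintype.card C : ℂ) w z r ^ M + (suh (Fintype.card C : ℂ) w z r ^ M -
          s0 (Fintype.card C : ℂ) w z r ^ M) * (if u = h then 1 else 0) +
          (shv (Fintype.card C : ℂ) w z r ^ M - s0 (Fintype.card C : ℂ) w z r ^ M) *
            (if v = h then 1 else 0) := by
      intro h
      by_cases hv : v = h
      · subst hv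
        rw [sum_pth_J, if_neg huv, if_pos rfl, shv]; ring
      · rw [sum_pth_I w z r u v h hv, if_neg hv, if_neg huv]
        by_cases hu : u = h
        · rw [if_pos hu, suh]; ring
        · rw [if_neg hu, s0]; ring
    simp_rw [h1]
    rw [Finset.sum_add_distrib, Finset.sum_add_distrib, ← Finset.mul_sum, ← Finset.mul_sum,
      Finset.sum_const, Finset.card_univ, nsmul_eq_mul]
    simp only [Finset.sum_ite_eq, Finset.mem_univ, if_true]
    ring

lemma sum_pair (k : ℕ) (a b : ℂ) :
    ∑ u : C, ∑ v : C, (if u = v then a else b) ^ k =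
      (Fintype.card C : ℂ) * a ^ k + (Fintype.card C : ℂ) * ((Fintype.card C : ℂ) - 1) * b ^ k := by
  have h1 : ∀ u v : C, (if u = v then a else b) ^ k =
      b ^ k + (a ^ k - b ^ k) * (if u = v then 1 else 0) := by
    intro u v
    split_ifs <;> ring
  simp_rw [h1]
  simp only [Finset.sum_add_distrib, ← Finset.mul_sum, Finset.sum_const, Finset.card_univ,
    nsmul_eq_mul, Finset.sum_ite_eq, Finset.mem_univ, if_true]
  ring

end

namespace MG

variable (k M r : ℕ)

/-- link weight `w`, spoke weight `z` -/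
def cw {k M r : ℕ} {R : Type} (w z : R) : (Comb k M r).E → R :=
  fun p => Sum.elim (fun _ => w) (fun _ => z) p.2.2

lemma potts_Comb (Q : ℕ) (w z : ℂ) :
    (Comb k M r).potts Q (cw w z) (fun _ => 1) =
      (Q : ℂ) * al M r (Q : ℂ) w z ^ k + (Q : ℂ) * ((Q : ℂ) - 1) * be M r (Q : ℂ) w z ^ k := by
  have key : ∀ σ : Bool ⊕ (Fin k × (Unit ⊕ (Fin M × Fin r))) → Fin Q,
      (∏ p : Fin k × (Fin M × (Fin (r + 1) ⊕ Fin r)),
        if σ (Sum.elim (Fin.cons (Sum.inl false) (nd p.1 p.2.1)) (nd p.1 p.2.1) p.2.2) =
          σ (Sum.elim (Fin.snoc (nd p.1 p.2.1) (Sum.inl true))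
            (fun _ => Sum.inr (p.1, Sum.inl ())) p.2.2)
        then Sum.elim (fun _ => w) (fun _ => z) p.2.2 else 1) =
      ∏ i : Fin k, ∏ m : Fin M, pth w z (σ (Sum.inl false)) (σ (Sum.inl true))
        (σ (Sum.inr (i, Sum.inl ()))) fun j => σ (Sum.inr (i, Sum.inr (m, j))) := by
    intro σ
    rw [Fintype.prod_prod_type]
    refine Finset.prod_congr rfl fun i _ => ?_
    rw [Fintype.prod_prod_type]
    refine Finset.prod_congr rfl fun m _ => ?_
    rw [Fintype.prod_sum_type, pth]
    congr 1
    refine Finset.prod_congr rfl fun j _ => ?_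
    have hc : ∀ j : Fin (r + 1), σ ((Fin.cons (Sum.inl false) (nd i m) : Fin (r + 1) → _) j) =
        (Fin.cons (σ (Sum.inl false)) (fun j => σ (nd i m j)) : Fin (r + 1) → Fin Q) j := by
      intro j
      refine Fin.cases ?_ (fun j => ?_) j
      · rw [Fin.cons_zero, Fin.cons_zero]
      · rw [Fin.cons_succ, Fin.cons_succ]
    have hs : ∀ j : Fin (r + 1), σ ((Fin.snoc (nd i m) (Sum.inl true) : Fin (r + 1) → _) j) =
        (Fin.snoc (fun j => σ (nd i m j)) (σ (Sum.inl true)) : Fin (r + 1) → Fin Q) j := by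
      intro j
      refine Fin.lastCases ?_ (fun j => ?_) j
      · rw [Fin.snoc_last, Fin.snoc_last]
      · rw [Fin.snoc_castSucc, Fin.snoc_castSucc]
    simp only [Sum.elim_inl]
    rw [hc, hs]
    rfl
  have h0 : (Comb k M r).potts Q (cw w z) (fun _ => 1) =
      ∑ σ : Bool ⊕ (Fin k × (Unit ⊕ (Fin M × Fin r))) → Fin Q,
      ∏ i : Fin k, ∏ m : Fin M, pth w z (σ (Sum.inl false)) (σ (Sum.inl true))
        (σ (Sum.inr (i, Sum.inl ()))) fun j => σ (Sum.inr (i, Sum.inr (m, j))) :=
    Finset.sum_congr rfl fun σ _ => key σ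
  have h0' := sum_copies (C := Fin Q) Bool (Unit ⊕ (Fin M × Fin r)) k
    (fun _ τ ρ => ∏ m : Fin M, pth w z (τ false) (τ true) (ρ (Sum.inl ()))
      fun j => ρ (Sum.inr (m, j)))
  rw [h0]
  refine h0'.trans ?_
  have h2 : ∀ τ : Bool → Fin Q, (∑ ρ : Unit ⊕ (Fin M × Fin r) → Fin Q, ∏ m : Fin M,
      pth w z (τ false) (τ true) (ρ (Sum.inl ())) fun j => ρ (Sum.inr (m, j))) =
      if τ false = τ true then al M r (Q : ℂ) w z else be M r (Q : ℂ) w z := by
    intro τ
    have h3 := sum_copies (C := Fin Q) Unit (Fin r) M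
      (fun _ (h : Unit → Fin Q) x => pth w z (τ false) (τ true) (h ()) x)
    refine h3.trans ?_
    have h4 := sum_hub (C := Fin Q) w z M r (τ false) (τ true)
    rw [Fintype.card_fin] at h4
    rw [← h4, ← (Equiv.funUnique Unit (Fin Q)).symm.sum_comp]
    refine Finset.sum_congr rfl fun h _ => ?_
    rw [Finset.prod_const, Finset.card_univ, Fintype.card_fin]
    rfl
  simp only [h2, Finset.prod_const, Finset.card_univ, Fintype.card_fin]
  have h5 := sum_pair (C := Fin Q) k (al M r (Q : ℂ) w z) (be M r (Q : ℂ) w z)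
  rw [Fintype.card_fin] at h5
  rw [← h5, ← (Equiv.boolArrowEquivProd (Fin Q)).symm.sum_comp, Fintype.sum_prod_type]
  rfl

instance : Nonempty (Comb k M r).V := ⟨Sum.inl false⟩

end MG

end Pool.Agent.RELD
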