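import Mathlib

/-! # Reliability roots of simple graphs are dense in the plane: definitions -/

open Polynomial

namespace Pool.Agent.RELD

/-- a finite multigraph: the edge `e` joins the vertices `s e` and `t e` -/
structure MG where
  /-- vertices -/
  V : Type
  /-- edges -/
  E : Type
  [fV : Fintype V]
  [dV : DecidableEq V]
  [fE : Fintype E]
  [dE : DecidableEq E]
  /-- first end -/
  s : E → V
  /-- second end -/
  t : E → V

attribute [instance] MG.fV MG.dV MG.fE MG.dE

namespace MG

/-- the spanning subgraph with edge set `A`, parallel edges identified -/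
def sub (G : MG) (A : Finset G.E) : SimpleGraph G.V :=
  SimpleGraph.fromRel fun x y => ∃ e ∈ A, G.s e = x ∧ G.t e = y

/-- no loops -/
def Loopless (G : MG) : Prop := ∀ e, G.s e ≠ G.t e

open Classical in
/-- the all-terminal reliability polynomial, evaluated at `q` -/
noncomputable def rel (G : MG) (q : ℂ) : ℂ :=
  ∑ A : Finset G.E, if (G.sub A).Connected then
    (1 - q) ^ A.card * q ^ (Fintype.card G.E - A.card) else 0

open Classical in
/-- the connected sum with weights: an edge in `A` has the factor `a e - b e`, the others `b e` -/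
noncomputable def cc (G : MG) (a b : G.E → ℂ) : ℂ :=
  ∑ A : Finset G.E, if (G.sub A).Connected then
    (∏ e ∈ A, (a e - b e)) * ∏ e ∈ Aᶜ, b e else 0

/-- the number of components of the spanning subgraph with edge set `A` -/
noncomputable def kc (G : MG) (A : Finset G.E) : ℕ := Nat.card (G.sub A).ConnectedComponent

/-- the Potts sum: colourings of the vertices, an edge with ends of the same colour has the
factor `a e`, the others `b e` -/
noncomputable def potts (G : MG) (Q : ℕ) (a b : G.E → ℂ) : ℂ :=
  ∑ σ : G.V → Fin Q, ∏ e, if σ (G.s e) = σ (G.t e) then a e else b e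

/-- the Potts polynomial in the Fortuin-Kasteleyn form -/
noncomputable def pz (G : MG) (a b : G.E → ℂ[X]) : ℂ[X] :=
  ∑ A : Finset G.E, (∏ e ∈ A, (a e - b e)) * (∏ e ∈ Aᶜ, b e) * X ^ G.kc A

/-- subdivide every edge once -/
def Sub (G : MG) : MG where
  V := G.V ⊕ G.E
  E := G.E × Bool
  s p := if p.2 then Sum.inr p.1 else Sum.inl (G.s p.1)
  t p := if p.2 then Sum.inl (G.t p.1) else Sum.inr p.1

/-- replace the edge `e` by `m e` parallel edges -/
def Par (G : MG) (m : G.E → ℕ) : MG where
  V := G.V
  E := Σ e, Fin (m e)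
  s p := G.s p.1
  t p := G.t p.1

/-- the nodes of one path of the comb graph -/
def nd {k M r : ℕ} (i : Fin k) (m : Fin M) (j : Fin r) :
    Bool ⊕ (Fin k × (Unit ⊕ (Fin M × Fin r))) := Sum.inr (i, Sum.inr (m, j))

/-- the comb graph: terminals `inl false` and `inl true`, `k` hubs, for every hub `M` paths with
`r` inner nodes between the terminals, every inner node joined to the hub -/
def Comb (k M r : ℕ) : MG where
  V := Bool ⊕ (Fin k × (Unit ⊕ (Fin M × Fin r)))
  E := Fin k × (Fin M × (Fin (r + 1) ⊕ Fin r))
  s p := Sum.elim (Fin.cons (Sum.inl false) (nd p.1 p.2.1)) (nd p.1 p.2.1) p.2.2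
  t p := Sum.elim (Fin.snoc (nd p.1 p.2.1) (Sum.inl true))
    (fun _ => Sum.inr (p.1, Sum.inl ())) p.2.2

end MG

/-! ## The transfer recursions; `w` is the weight of the links, `z` of the spokes, `Q` the number
of colours -/

section

variable {R : Type*} [CommRing R]

/-- `(A, B, E)` for `v ≠ h` -/
def rI (Q w z : R) : ℕ → R × R × R
  | 0 => (1, 0, w - 1)
  | j + 1 =>
    ((Q - 1) * (rI Q w z j).1 + z * ((rI Q w z j).1 + (rI Q w z j).2.1) + (rI Q w z j).2.2 +
        (w - 1) * (rI Q w z j).1,
      (w - 1) * (z * ((rI Q w z j).1 + (rI Q w z j).2.1) - (rI Q w z j).1),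
      (w - 1) * (rI Q w z j).2.2)

/-- `(A', B')` for `v = h` -/
def rJ (Q w z : R) : ℕ → R × R
  | 0 => (1, w - 1)
  | j + 1 =>
    ((Q - 1) * (rJ Q w z j).1 + z * ((rJ Q w z j).1 + (rJ Q w z j).2) + (w - 1) * (rJ Q w z j).1,
      (w - 1) * (z * ((rJ Q w z j).1 + (rJ Q w z j).2) - (rJ Q w z j).1))

/-- the sum over one path: all terminals different -/
def s0 (Q w z : R) (r : ℕ) : R := (rI Q w z r).1

/-- `u = v`, the hub different -/
def suv (Q w z : R) (r : ℕ) : R := (rI Q w z r).1 + (rI Q w z r).2.2

/-- `u` and the hub equal, `v` different -/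
def suh (Q w z : R) (r : ℕ) : R := (rI Q w z r).1 + (rI Q w z r).2.1

/-- `v` and the hub equal, `u` different -/
def shv (Q w z : R) (r : ℕ) : R := (rJ Q w z r).1

/-- all equal -/
def sall (Q w z : R) (r : ℕ) : R := (rJ Q w z r).1 + (rJ Q w z r).2

/-- the sum over the hub and its paths for terminals of the same colour -/
def al (M r : ℕ) (Q w z : R) : R := sall Q w z r ^ M + (Q - 1) * suv Q w z r ^ M

/-- the sum over the hub and its paths for terminals of different colours -/
def be (M r : ℕ) (Q w z : R) : R :=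
  suh Q w z r ^ M + shv Q w z r ^ M + (Q - 2) * s0 Q w z r ^ M

end

end Pool.Agent.RELD
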