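import Pool.Agent.RELD.Defs

/-! # The Fortuin-Kasteleyn expansion -/

open Polynomial

namespace Pool.Agent.RELD

namespace MG

variable (G : MG)

lemma adj_sub {A : Finset G.E} {e : G.E} (he : e ∈ A) (h : G.s e ≠ G.t e) :
    (G.sub A).Adj (G.s e) (G.t e) := by
  rw [sub, SimpleGraph.fromRel_adj]
  exact ⟨h, Or.inl ⟨e, he, rfl, rfl⟩⟩

/-- the colourings which are constant on the edges of `A` -/
noncomputable def colEquiv (A : Finset G.E) (C : Type) :
    {σ : G.V → C // ∀ e ∈ A, σ (G.s e) = σ (G.t e)} ≃ ((G.sub A).ConnectedComponent → C) where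
  toFun σ c := c.lift σ.1 (fun v w p _ => by
    have h : ∀ {x y : G.V} (p : (G.sub A).Walk x y), σ.1 x = σ.1 y := by
      intro x y p
      induction p with
      | nil => rfl
      | cons hadj _ ih =>
        rw [← ih]
        rw [sub, SimpleGraph.fromRel_adj] at hadj
        rcases hadj.2 with ⟨e, he, h1, h2⟩ | ⟨e, he, h1, h2⟩
        · rw [← h1, ← h2]; exact σ.2 e he
        · rw [← h1, ← h2]; exact (σ.2 e he).symm
    exact h p)
  invFun f := ⟨fun x => f ((G.sub A).connectedComponentMk x), fun e he => by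
    by_cases h : G.s e = G.t e
    · rw [h]
    · exact congrArg f (SimpleGraph.ConnectedComponent.sound (G.adj_sub he h).reachable)⟩
  left_inv σ := by
    ext x
    rfl
  right_inv f := by
    funext c
    induction c using SimpleGraph.ConnectedComponent.ind with
    | _ v => rfl

lemma sum_col (A : Finset G.E) (Q : ℕ) :
    (∑ σ : G.V → Fin Q, ∏ e ∈ A, if σ (G.s e) = σ (G.t e) then (1 : ℂ) else 0) =
      (Q : ℂ) ^ G.kc A := by
  classical
  have h1 : ∀ σ : G.V → Fin Q, (∏ e ∈ A, if σ (G.s e) = σ (G.t e) then (1 : ℂ) else 0) =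
      if ∀ e ∈ A, σ (G.s e) = σ (G.t e) then 1 else 0 := by
    intro σ
    by_cases h : ∀ e ∈ A, σ (G.s e) = σ (G.t e)
    · rw [if_pos h]
      exact Finset.prod_eq_one fun e he => if_pos (h e he)
    · rw [if_neg h]
      push Not at h
      obtain ⟨e, he, hne⟩ := h
      exact Finset.prod_eq_zero he (if_neg hne)
  simp_rw [h1]
  rw [Finset.sum_boole]
  have h2 : (Finset.univ.filter fun σ : G.V → Fin Q =>
      ∀ e ∈ A, σ (G.s e) = σ (G.t e)).card = Q ^ G.kc A := by
    rw [← Fintype.card_subtype, ← Nat.card_eq_fintype_card, Nat.card_congr (G.colEquiv A (Fin Q)),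
      Nat.card_fun, Nat.card_eq_fintype_card, Fintype.card_fin, kc]
  rw [h2]
  push_cast
  rfl

/-- the Fortuin-Kasteleyn expansion -/
lemma fk (Q : ℕ) (a b : G.E → ℂ) :
    G.potts Q a b =
      ∑ A : Finset G.E, (∏ e ∈ A, (a e - b e)) * (∏ e ∈ Aᶜ, b e) * (Q : ℂ) ^ G.kc A := by
  classical
  have h1 : ∀ σ : G.V → Fin Q, (∏ e, if σ (G.s e) = σ (G.t e) then a e else b e) =
      ∑ A : Finset G.E, (∏ e ∈ A, (a e - b e)) * (∏ e ∈ Aᶜ, b e) *
        ∏ e ∈ A, if σ (G.s e) = σ (G.t e) then (1 : ℂ) else 0 := by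
    intro σ
    have h2 : ∀ e, (if σ (G.s e) = σ (G.t e) then a e else b e) =
        (a e - b e) * (if σ (G.s e) = σ (G.t e) then (1 : ℂ) else 0) + b e := by
      intro e
      split_ifs <;> ring
    simp_rw [h2]
    rw [Finset.prod_add]
    rw [Finset.powerset_univ]
    refine Finset.sum_congr rfl fun A _ => ?_
    rw [Finset.prod_mul_distrib, ← Finset.compl_eq_univ_sdiff]
    ring
  rw [potts]
  simp_rw [h1]
  rw [Finset.sum_comm]
  refine Finset.sum_congr rfl fun A _ => ?_
  rw [← Finset.mul_sum, sum_col]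

lemma pz_eval (Q : ℕ) (a b : G.E → ℂ[X]) :
    (G.pz a b).eval (Q : ℂ) = G.potts Q (fun e => (a e).eval (Q : ℂ)) fun e => (b e).eval (Q : ℂ) := by
  rw [fk, pz, eval_finsetSum]
  refine Finset.sum_congr rfl fun A _ => ?_
  rw [eval_mul, eval_mul, eval_prod, eval_prod, eval_pow, eval_X]
  simp only [eval_sub]

lemma kc_pos [Nonempty G.V] (A : Finset G.E) : 0 < G.kc A := by
  classical
  rw [kc]
  have : Nonempty (G.sub A).ConnectedComponent :=
    ⟨(G.sub A).connectedComponentMk (Classical.arbitrary G.V)⟩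
  exact Nat.card_pos

lemma kc_eq_one_iff [Nonempty G.V] (A : Finset G.E) : G.kc A = 1 ↔ (G.sub A).Connected := by
  classical
  rw [kc, Nat.card_eq_one_iff_unique]
  constructor
  · rintro ⟨h1, _⟩
    rw [SimpleGraph.connected_iff]
    refine ⟨fun x y => ?_, inferInstance⟩
    exact SimpleGraph.ConnectedComponent.exact (Subsingleton.elim _ _)
  · intro h
    exact ⟨h.preconnected.subsingleton_connectedComponent,
      ⟨(G.sub A).connectedComponentMk (Classical.arbitrary G.V)⟩⟩

lemma pz_coeff [Nonempty G.V] (a b : G.E → ℂ[X]) :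
    (G.pz a b).coeff 1 = G.cc (fun e => (a e).eval 0) fun e => (b e).eval 0 := by
  classical
  rw [pz, cc, finsetSum_coeff]
  refine Finset.sum_congr rfl fun A _ => ?_
  have hk := G.kc_pos A
  rw [coeff_mul_X_pow']
  by_cases h : G.kc A = 1
  · rw [if_pos h.le, if_pos ((G.kc_eq_one_iff A).mp h), h, Nat.sub_self, coeff_zero_eq_eval_zero,
      eval_mul, eval_prod, eval_prod]
    simp only [eval_sub]
  · rw [if_neg (by omega), if_neg fun hc => h ((G.kc_eq_one_iff A).mpr hc)]

/-- the connected sum is the linear coefficient of the Potts polynomial -/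
lemma cc_eq [Nonempty G.V] (a b : G.E → ℂ[X]) (P : ℂ[X])
    (h : ∀ Q : ℕ, G.potts Q (fun e => (a e).eval (Q : ℂ)) (fun e => (b e).eval (Q : ℂ)) =
      P.eval (Q : ℂ)) :
    G.cc (fun e => (a e).eval 0) (fun e => (b e).eval 0) = P.coeff 1 := by
  have h1 : G.pz a b = P := by
    apply Polynomial.eq_of_infinite_eval_eq
    refine Set.Infinite.mono (s := Set.range fun n : ℕ => (n : ℂ)) ?_
      (Set.infinite_range_of_injective Nat.cast_injective)
    rintro _ ⟨n, rfl⟩
    change (G.pz a b).eval (n : ℂ) = P.eval (n : ℂ)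
    rw [pz_eval, h]
  rw [← pz_coeff, h1]

end MG

end Pool.Agent.RELD
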