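import Pool.Agent.RELD.CCC

/-! # Iterated subdivision and the reliability polynomial of the final graph -/

open Polynomial

namespace Pool.Agent.RELD

namespace MG

variable (G : MG)

lemma cc_Sub' [Nonempty G.V] (a b : ℂ) :
    G.Sub.cc (fun _ => a) (fun _ => b) =
      (a - b) ^ Fintype.card G.E * G.cc (fun _ => a + b) (fun _ => 2 * b) := by
  rw [cc_Sub, ← cc_smul]
  congr 1 <;> funext _ <;> ring

/-- the `j`-fold iterated subdivision -/
def SubN (G : MG) : ℕ → MG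
  | 0 => G
  | j + 1 => (SubN G j).Sub

instance instNonemptySubN [h : Nonempty G.V] (j : ℕ) : Nonempty (G.SubN j).V := by
  induction j with
  | zero => exact h
  | succ j ih => exact inferInstanceAs (Nonempty (G.SubN j).Sub.V)

lemma cc_SubN [Nonempty G.V] (j : ℕ) : ∃ N : ℕ, ∀ a b : ℂ,
    (G.SubN j).cc (fun _ => a) (fun _ => b) =
      (a - b) ^ N * G.cc (fun _ => a + (2 ^ j - 1) * b) (fun _ => 2 ^ j * b) := by
  induction j with
  | zero =>
    refine ⟨0, fun a b => ?_⟩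
    simp only [pow_zero, sub_self, zero_mul, add_zero, one_mul]
    rfl
  | succ j ih =>
    obtain ⟨N, hN⟩ := ih
    refine ⟨Fintype.card (G.SubN j).E + N, fun a b => ?_⟩
    have h1 := (G.SubN j).cc_Sub' a b
    rw [hN (a + b) (2 * b)] at h1
    change (G.SubN j).Sub.cc (fun _ => a) (fun _ => b) = _
    rw [h1, pow_add, mul_assoc, show a + b - 2 * b = a - b by ring]
    congr 3 <;> funext _ <;> ring

/-- the multiplicities: one for the links, `K` for the spokes -/
def mu (k M r K : ℕ) (e : (Comb k M r).E) : ℕ := Sum.elim (fun _ => 1) (fun _ => K) e.2.2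

lemma cc_ParComb (k M r K : ℕ) (w : ℂ) :
    ((Comb k M r).Par (mu k M r K)).cc (fun _ => w) (fun _ => 1) =
      al M r 0 w (w ^ K) ^ k - be M r 0 w (w ^ K) ^ k := by
  have h := (Comb k M r).cc_Par (mu k M r K) (fun _ => w) (fun _ => 1)
  rw [h, ← cc_Comb]
  congr 1 <;> funext e
  · rw [mu, cw]
    rcases e.2.2 with j | j
    · simp only [Sum.elim_inl, pow_one]
    · simp only [Sum.elim_inr]
  · rw [one_pow]

/-- the final graph -/
def Fin5 (k M r K j n : ℕ) : MG :=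
  (((((Comb k M r).Par (mu k M r K)).SubN j).Par fun _ => n)).Sub

/-- the weight as a function of the failure probability -/
noncomputable def Wt (j n : ℕ) (q : ℂ) : ℂ := 1 - (1 - ((1 + q) / (2 * q)) ^ n) / 2 ^ j

lemma rel_Fin5 (k M r K j n : ℕ) : ∃ N1 N2 N3 : ℕ, ∀ q : ℂ, q ≠ 0 →
    (Fin5 k M r K j n).rel q =
      (1 - q) ^ N1 * ((1 + q) ^ n - (2 * q) ^ n) ^ N2 * (2 ^ j * (2 * q) ^ n) ^ N3 *
        (al M r 0 (Wt j n q) (Wt j n q ^ K) ^ k - be M r 0 (Wt j n q) (Wt j n q ^ K) ^ k) := by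
  set G1 := (Comb k M r).Par (mu k M r K) with hG1
  have : Nonempty G1.V := by rw [hG1]; infer_instance
  obtain ⟨N, hN⟩ := G1.cc_SubN j
  set G2 := G1.SubN j with hG2
  refine ⟨Fintype.card (G2.Par fun _ => n).E, N, Fintype.card G1.E, fun q hq => ?_⟩
  have h1 : (Fin5 k M r K j n).rel q = (G2.Par fun _ => n).Sub.cc (fun _ => 1) (fun _ => q) :=
    rel_eq _ q
  rw [h1, cc_Sub', cc_Par G2 (fun _ => n) (fun _ => 1 + q) (fun _ => 2 * q), hN, ← cc_ParComb]
  have hb : (2 : ℂ) ^ j * (2 * q) ^ n ≠ 0 :=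
    mul_ne_zero (pow_ne_zero _ two_ne_zero) (pow_ne_zero _ (mul_ne_zero two_ne_zero hq))
  have h3 := G1.cc_smul (2 ^ j * (2 * q) ^ n) (fun _ => Wt j n q) (fun _ => 1)
  have h4 : (2 : ℂ) ^ j * (2 * q) ^ n * Wt j n q =
      (1 + q) ^ n + (2 ^ j - 1) * (2 * q) ^ n := by
    have h5 : (2 * q) ^ n ≠ 0 := pow_ne_zero _ (mul_ne_zero two_ne_zero hq)
    rw [Wt, div_pow]
    field_simp
    ring
  rw [h4, mul_one] at h3
  rw [h3]
  ring

end MG

end Pool.Agent.RELD
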