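import Pool.Agent.RELD.FK

/-! # Subdivision and parallel edges -/

open Polynomial

namespace Pool.Agent.RELD

namespace MG

variable (G : MG)

lemma sum_two (Q : ℕ) (x y : Fin Q) (a b : ℂ) :
    (∑ c : Fin Q, (if x = c then a else b) * if c = y then a else b) =
      if x = y then a ^ 2 + ((Q : ℂ) - 1) * b ^ 2 else 2 * a * b + ((Q : ℂ) - 2) * b ^ 2 := by
  have h1 : ∀ c : Fin Q, ((if x = c then a else b) * if c = y then a else b) =
      b ^ 2 + (a - b) * b * (if x = c then 1 else 0) + (a - b) * b * (if c = y then 1 else 0) +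
        (a - b) ^ 2 * ((if x = c then 1 else 0) * if c = y then 1 else 0) := by
    intro c
    split_ifs <;> ring
  simp_rw [h1]
  rw [Finset.sum_add_distrib, Finset.sum_add_distrib, Finset.sum_add_distrib, ← Finset.mul_sum,
    ← Finset.mul_sum, ← Finset.mul_sum, Finset.sum_const, Finset.card_univ, Fintype.card_fin,
    nsmul_eq_mul]
  simp only [Finset.sum_ite_eq, Finset.sum_ite_eq', Finset.mem_univ, if_true, ite_mul, one_mul,
    zero_mul]
  split_ifs <;> ring

lemma potts_Sub (Q : ℕ) (a b : ℂ) :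
    G.Sub.potts Q (fun _ => a) (fun _ => b) =
      G.potts Q (fun _ => a ^ 2 + ((Q : ℂ) - 1) * b ^ 2)
        (fun _ => 2 * a * b + ((Q : ℂ) - 2) * b ^ 2) := by
  have h0 : G.Sub.potts Q (fun _ => a) (fun _ => b) = ∑ σ : G.V ⊕ G.E → Fin Q, ∏ p : G.E × Bool,
      if σ (if p.2 then Sum.inr p.1 else Sum.inl (G.s p.1)) =
        σ (if p.2 then Sum.inl (G.t p.1) else Sum.inr p.1) then a else b := rfl
  rw [h0, ← (Equiv.sumArrowEquivProdArrow G.V G.E (Fin Q)).symm.sum_comp, Fintype.sum_prod_type,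
    potts]
  refine Finset.sum_congr rfl fun σ _ => ?_
  simp_rw [← sum_two Q]
  rw [Fintype.prod_sum]
  refine Finset.sum_congr rfl fun τ _ => ?_
  rw [Fintype.prod_prod_type]
  refine Finset.prod_congr rfl fun e _ => ?_
  rw [Fintype.prod_bool, mul_comm]
  rfl

instance [Nonempty G.V] : Nonempty G.Sub.V := ⟨Sum.inl (Classical.arbitrary G.V)⟩

instance [h : Nonempty G.V] (m : G.E → ℕ) : Nonempty (G.Par m).V := h

lemma cc_Sub [Nonempty G.V] (a b : ℂ) :
    G.Sub.cc (fun _ => a) (fun _ => b) =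
      G.cc (fun _ => a ^ 2 - b ^ 2) (fun _ => 2 * a * b - 2 * b ^ 2) := by
  have h1 := G.Sub.cc_eq (fun _ => C a) (fun _ => C b)
    (G.pz (fun _ => C (a ^ 2) + (X - 1) * C (b ^ 2)) fun _ => C (2 * a * b) + (X - 2) * C (b ^ 2))
    (fun Q => by
      rw [pz_eval]
      simp only [eval_C, eval_add, eval_mul, eval_sub, eval_X, eval_one, eval_ofNat]
      exact G.potts_Sub Q a b)
  rw [pz_coeff] at h1
  simp only [eval_C, eval_add, eval_mul, eval_sub, eval_X, eval_one, eval_ofNat] at h1
  rw [h1]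
  congr 1 <;> funext _ <;> ring

lemma potts_Par (m : G.E → ℕ) (Q : ℕ) (a b : G.E → ℂ) :
    (G.Par m).potts Q (fun p => a p.1) (fun p => b p.1) =
      G.potts Q (fun e => a e ^ m e) (fun e => b e ^ m e) := by
  have h0 : (G.Par m).potts Q (fun p => a p.1) (fun p => b p.1) = ∑ σ : G.V → Fin Q,
      ∏ p : (Σ e, Fin (m e)), if σ (G.s p.1) = σ (G.t p.1) then a p.1 else b p.1 := rfl
  rw [h0, potts]
  refine Finset.sum_congr rfl fun σ _ => ?_
  rw [Fintype.prod_sigma]
  refine Finset.prod_congr rfl fun e _ => ?_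
  change (∏ _y : Fin (m e), if σ (G.s e) = σ (G.t e) then a e else b e) = _
  rw [Finset.prod_const, Finset.card_univ, Fintype.card_fin]
  split_ifs <;> rfl

lemma cc_Par [Nonempty G.V] (m : G.E → ℕ) (a b : G.E → ℂ) :
    (G.Par m).cc (fun p => a p.1) (fun p => b p.1) =
      G.cc (fun e => a e ^ m e) (fun e => b e ^ m e) := by
  have h1 := (G.Par m).cc_eq (fun p => C (a p.1)) (fun p => C (b p.1))
    (G.pz (fun e => C (a e ^ m e)) fun e => C (b e ^ m e))
    (fun Q => by
      rw [pz_eval]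
      simp only [eval_C]
      exact G.potts_Par m Q a b)
  rw [pz_coeff] at h1
  simp only [eval_C] at h1
  exact h1

/-- homogeneity -/
lemma cc_smul (c : ℂ) (a b : G.E → ℂ) :
    G.cc (fun e => c * a e) (fun e => c * b e) = c ^ Fintype.card G.E * G.cc a b := by
  classical
  rw [cc, cc, Finset.mul_sum]
  refine Finset.sum_congr rfl fun A _ => ?_
  split_ifs
  · simp_rw [← mul_sub]
    rw [Finset.prod_mul_distrib, Finset.prod_mul_distrib, Finset.prod_const, Finset.prod_const,
      ← Finset.card_add_card_compl A, pow_add]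
    ring
  · rw [mul_zero]

/-- the reliability polynomial is a connected sum -/
lemma rel_eq (q : ℂ) : G.rel q = G.cc (fun _ => 1) fun _ => q := by
  classical
  rw [rel, cc]
  refine Finset.sum_congr rfl fun A _ => ?_
  split_ifs
  · rw [Finset.prod_const, Finset.prod_const, Finset.card_compl]
  · rfl

end MG

end Pool.Agent.RELD
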