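import Mathlib

/-! # Two analytic functions which exchange their order have powers which meet -/

open Filter Topology

namespace Pool.Agent.RELD

lemma exists_root_of_unity_near {z : ℂ} (hz : ‖z‖ = 1) {ε : ℝ} (hε : 0 < ε) :
    ∃ k : ℕ, 1 ≤ k ∧ ∃ ζ : ℂ, ζ ^ k = 1 ∧ dist ζ z < ε := by
  set F : ℝ → ℂ := fun t => Complex.exp (2 * Real.pi * Complex.I * t) with hF
  have hFc : Continuous F := by
    rw [hF]; fun_prop
  have hz0 : F (z.arg / (2 * Real.pi)) = z := by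
    rw [hF]
    have h1 := Complex.norm_mul_exp_arg_mul_I z
    rw [hz, Complex.ofReal_one, one_mul] at h1
    conv_rhs => rw [← h1]
    congr 1
    push_cast
    have hpi : (Real.pi : ℂ) ≠ 0 := by exact_mod_cast Real.pi_ne_zero
    field_simp
  have hopen : IsOpen {t : ℝ | dist (F t) z < ε} :=
    isOpen_lt (hFc.dist continuous_const) continuous_const
  have hne : ({t : ℝ | dist (F t) z < ε}).Nonempty := ⟨z.arg / (2 * Real.pi), by
    change dist (F (z.arg / (2 * Real.pi))) z < ε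
    rw [hz0, dist_self]; exact hε⟩
  obtain ⟨x, hx⟩ := (Rat.denseRange_cast (𝕜 := ℝ)).exists_mem_open hopen hne
  refine ⟨x.den, x.pos, F x, ?_, hx⟩
  rw [hF]
  change Complex.exp (2 * Real.pi * Complex.I * ((x : ℝ) : ℂ)) ^ x.den = 1
  rw [← Complex.exp_nat_mul, Complex.exp_eq_one_iff]
  refine ⟨x.num, ?_⟩
  have h2 : (x.den : ℂ) * ((x : ℝ) : ℂ) = (x.num : ℂ) := by
    have h3 : (x.den : ℚ) * x = x.num := by
      rw [mul_comm]; exact Rat.mul_den_eq_num x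
    have h4 : ((((x.den : ℚ) * x : ℚ) : ℝ) : ℂ) = ((x.num : ℚ) : ℝ) := by rw [h3]
    push_cast at h4
    push_cast
    exact h4
  calc (x.den : ℂ) * (2 * Real.pi * Complex.I * ((x : ℝ) : ℂ))
      = ((x.den : ℂ) * ((x : ℝ) : ℂ)) * (2 * Real.pi * Complex.I) := by ring
    _ = _ := by rw [h2]

lemma exists_pow_eq {U : Set ℂ} (hU : IsOpen U) (hc : IsPreconnected U) {f g : ℂ → ℂ}
    (hf : DifferentiableOn ℂ f U) (hg : DifferentiableOn ℂ g U) {q₁ q₂ : ℂ} (h₁ : q₁ ∈ U)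
    (h₂ : q₂ ∈ U) (h1 : ‖f q₁‖ < ‖g q₁‖) (h2 : ‖g q₂‖ < ‖f q₂‖) :
    ∃ k : ℕ, 1 ≤ k ∧ ∃ q ∈ U, f q ^ k = g q ^ k := by
  have hfa := hf.analyticOnNhd hU
  have hga := hg.analyticOnNhd hU
  have hcont : ContinuousOn (fun q => ‖f q‖ - ‖g q‖) U :=
    (hf.continuousOn.norm).sub hg.continuousOn.norm
  have h3 := hc.intermediate_value h₁ h₂ hcont
  obtain ⟨q₃, hq₃, h4⟩ := h3 (show (0 : ℝ) ∈ _ from ⟨by
    change ‖f q₁‖ - ‖g q₁‖ ≤ 0; linarith, by change 0 ≤ ‖f q₂‖ - ‖g q₂‖; linarith⟩)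
  have h5 : ‖f q₃‖ = ‖g q₃‖ := by
    change ‖f q₃‖ - ‖g q₃‖ = 0 at h4; linarith
  by_cases h6 : g q₃ = 0
  · refine ⟨1, le_rfl, q₃, hq₃, ?_⟩
    rw [h6, norm_zero, norm_eq_zero] at h5
    rw [h5, h6]
  · have hdiv : AnalyticAt ℂ (fun q => f q / g q) q₃ := (hfa q₃ hq₃).div (hga q₃ hq₃) h6
    have hev : ∀ᶠ q in 𝓝 q₃, q ∈ U ∧ g q ≠ 0 :=
      Filter.Eventually.and (hU.mem_nhds hq₃) ((hga q₃ hq₃).continuousAt.eventually_ne h6)
    rcases hdiv.eventually_constant_or_nhds_le_map_nhds with h7 | h7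
    · exfalso
      set c := f q₃ / g q₃ with hcdef
      have hcn : ‖c‖ = 1 := by
        rw [hcdef, norm_div, h5, div_self (norm_ne_zero_iff.mpr h6)]
      have h8 : f =ᶠ[𝓝 q₃] fun q => c * g q := by
        filter_upwards [h7, hev] with q hq hq'
        rw [← hq, div_mul_cancel₀ _ hq'.2]
      have h9 : Set.EqOn f (fun q => c * g q) U :=
        hfa.eqOn_of_preconnected_of_eventuallyEq (fun q hq => analyticAt_const.mul (hga q hq)) hc
          hq₃ h8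
      have h10 := h9 h₁
      simp only at h10
      rw [h10, norm_mul, hcn, one_mul] at h1
      exact lt_irrefl _ h1
    · have h8 : (fun q => f q / g q) '' {q | q ∈ U ∧ g q ≠ 0} ∈ 𝓝 (f q₃ / g q₃) :=
        h7 (Filter.mem_map.mpr (Filter.mem_of_superset hev (Set.subset_preimage_image _ _)))
      obtain ⟨ε, hε, hball⟩ := Metric.mem_nhds_iff.mp h8
      have hn : ‖f q₃ / g q₃‖ = 1 := by
        rw [norm_div, h5, div_self (norm_ne_zero_iff.mpr h6)]
      obtain ⟨k, hk, ζ, hζ, hd⟩ := exists_root_of_unity_near hn hε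
      obtain ⟨q, ⟨hqU, hgq⟩, hq⟩ := hball (Metric.mem_ball.mpr hd)
      refine ⟨k, hk, q, hqU, ?_⟩
      simp only at hq
      have : f q = ζ * g q := by rw [← hq, div_mul_cancel₀ _ hgq]
      rw [this, mul_pow, hζ, one_mul]

/-- near a number there are numbers whose `n`-th powers are real of both signs -/
lemma exists_pow_real {S : Set ℂ} {z₀ : ℂ} (hS : S ∈ 𝓝 z₀) :
    ∀ᶠ n : ℕ in atTop, (∃ z ∈ S, z ^ n = ((‖z₀‖ ^ n : ℝ) : ℂ)) ∧
      ∃ z ∈ S, z ^ n = -((‖z₀‖ ^ n : ℝ) : ℂ) := by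
  set F : ℝ → ℂ := fun t => (‖z₀‖ : ℂ) * Complex.exp (t * Complex.I) with hF
  have hFc : Continuous F := by rw [hF]; fun_prop
  have hF0 : F z₀.arg = z₀ := Complex.norm_mul_exp_arg_mul_I z₀
  have h1 : F ⁻¹' S ∈ 𝓝 z₀.arg := hFc.continuousAt.preimage_mem_nhds (by rw [hF0]; exact hS)
  obtain ⟨δ, hδ, hball⟩ := Metric.mem_nhds_iff.mp h1
  have h2 : ∀ᶠ n : ℕ in atTop, 2 * Real.pi / δ < n :=
    (tendsto_natCast_atTop_atTop (R := ℝ)).eventually_gt_atTop _
  filter_upwards [h2, eventually_ge_atTop 1] with n hn hn1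
  have hnpos : (0 : ℝ) < n := by exact_mod_cast hn1
  have hpi := Real.pi_pos
  have key : ∀ j : ℤ, (n : ℝ) * z₀.arg / Real.pi ≤ j → (j : ℝ) ≤ (n : ℝ) * z₀.arg / Real.pi + 2 →
      F (Real.pi * j / n) ∈ S := by
    intro j hj1 hj2
    apply hball
    rw [Metric.mem_ball, Real.dist_eq]
    have h3 : 2 * Real.pi < n * δ := by
      rw [div_lt_iff₀ hδ] at hn; exact hn
    have h4 : (n : ℝ) * z₀.arg ≤ Real.pi * j := by
      rw [div_le_iff₀ hpi] at hj1; linarith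
    have h5 : Real.pi * j ≤ (n : ℝ) * z₀.arg + 2 * Real.pi := by
      have := mul_le_mul_of_nonneg_left hj2 hpi.le
      rw [mul_add, mul_div_cancel₀ _ hpi.ne'] at this
      linarith
    have h6 : Real.pi * j / n - z₀.arg = (Real.pi * j - n * z₀.arg) / n := by
      field_simp
    rw [h6, abs_div, abs_of_pos hnpos, div_lt_iff₀ hnpos, abs_of_nonneg (by linarith)]
    linarith
  have hpow : ∀ j : ℤ, F (Real.pi * j / n) ^ n = ((‖z₀‖ ^ n : ℝ) : ℂ) * (-1) ^ j := by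
    intro j
    rw [hF]
    simp only
    rw [mul_pow, ← Complex.exp_nat_mul]
    congr 1
    · push_cast; ring
    · have h7 : (n : ℂ) * (((Real.pi * j / n : ℝ) : ℂ) * Complex.I) =
          j * (Real.pi * Complex.I) := by
        push_cast
        have : (n : ℂ) ≠ 0 := by exact_mod_cast hnpos.ne'
        field_simp
      rw [h7, Complex.exp_int_mul, Complex.exp_pi_mul_I]
  set j := ⌈(n : ℝ) * z₀.arg / Real.pi⌉ with hj
  have hj1 : (n : ℝ) * z₀.arg / Real.pi ≤ j := Int.le_ceil _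
  have hj2 : (j : ℝ) < (n : ℝ) * z₀.arg / Real.pi + 1 := Int.ceil_lt_add_one _
  have m1 := key j hj1 (by linarith)
  have m2 := key (j + 1) (by push_cast; linarith) (by push_cast; linarith)
  have p1 := hpow j
  have p2 := hpow (j + 1)
  rcases Int.even_or_odd j with he | ho
  · refine ⟨⟨_, m1, ?_⟩, ⟨_, m2, ?_⟩⟩
    · rw [p1, he.neg_one_zpow, mul_one]
    · rw [p2, he.add_one.neg_one_zpow, mul_neg_one]
  · refine ⟨⟨_, m2, ?_⟩, ⟨_, m1, ?_⟩⟩
    · rw [p2, ho.add_one.neg_one_zpow, mul_one]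
    · rw [p1, ho.neg_one_zpow, mul_neg_one]

end Pool.Agent.RELD
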