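import Pool.Agent.RELD.CLO
import Pool.Agent.RELD.ROT

/-! # Zeros of the connected sums of comb graphs along an analytic weight -/

open Polynomial Filter Topology

namespace Pool.Agent.RELD

lemma al_poly (M r K : ℕ) (w : ℂ) :
    (al M r (0 : ℂ[X]) X (X ^ K)).eval w = al M r 0 w (w ^ K) := by
  have h := map_al (evalRingHom w) (0 : ℂ[X]) X (X ^ K) M r
  simp only [coe_evalRingHom, eval_X, eval_pow, eval_zero] at h
  exact h.symm

lemma be_poly (M r K : ℕ) (w : ℂ) :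
    (be M r (0 : ℂ[X]) X (X ^ K)).eval w = be M r 0 w (w ^ K) := by
  have h := map_be (evalRingHom w) (0 : ℂ[X]) X (X ^ K) M r
  simp only [coe_evalRingHom, eval_X, eval_pow, eval_zero] at h
  exact h.symm

/-- a strictly differentiable weight `W` of norm less than `1` at `q₀` with non-zero derivative:
near `q₀` the sums `al ^ k` and `be ^ k` agree somewhere, and they differ in norm somewhere else -/
lemma exists_zero {W : ℂ → ℂ} {q₀ W' : ℂ} (hW : HasStrictDerivAt W W' q₀) (hW' : W' ≠ 0)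
    (h1 : ‖W q₀‖ < 1) {U : Set ℂ} (hU : IsOpen U) (hc : IsPreconnected U) (hq₀ : q₀ ∈ U)
    (hWU : DifferentiableOn ℂ W U) :
    ∃ r K M k : ℕ, 1 ≤ k ∧ (∃ q ∈ U, al M r 0 (W q) (W q ^ K) ^ k = be M r 0 (W q) (W q ^ K) ^ k) ∧
      ∃ q ∈ U, ‖W q‖ < 1 ∧ al M r 0 (W q) (W q ^ K) ^ k ≠ be M r 0 (W q) (W q ^ K) ^ k := by
  set c : ℝ := (1 + ‖W q₀‖) / 2 with hcdef
  have hc1 : c < 1 := by rw [hcdef]; linarith
  have hWc : ‖W q₀‖ < c := by rw [hcdef]; linarith
  have h2 : (2 : ℂ) - W q₀ ≠ 0 := by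
    intro h0
    have : W q₀ = 2 := (sub_eq_zero.mp h0).symm
    rw [this] at h1
    norm_num at h1
  have h3 : (1 : ℂ) - W q₀ ≠ 0 := by
    intro h0
    have : W q₀ = 1 := (sub_eq_zero.mp h0).symm
    rw [this] at h1
    norm_num at h1
  set Φ : ℂ → ℂ := fun q => (1 - W q) / (2 - W q) with hΦ
  have hΦd : HasStrictDerivAt Φ ((-W' * (2 - W q₀) - (1 - W q₀) * -W') / (2 - W q₀) ^ 2) q₀ := by
    have a1 : HasStrictDerivAt (fun q => 1 - W q) (-W') q₀ := hW.const_sub 1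
    have a2 : HasStrictDerivAt (fun q => 2 - W q) (-W') q₀ := hW.const_sub 2
    exact a1.fun_div a2 h2
  have hd0 : (-W' * (2 - W q₀) - (1 - W q₀) * -W') / (2 - W q₀) ^ 2 ≠ 0 := by
    rw [div_ne_zero_iff]
    refine ⟨?_, pow_ne_zero _ h2⟩
    have : -W' * (2 - W q₀) - (1 - W q₀) * -W' = -W' := by ring
    rw [this]
    exact neg_ne_zero.mpr hW'
  have hmap := hΦd.map_nhds_eq hd0
  -- the good neighbourhood
  have hV : {q | q ∈ U ∧ ‖W q‖ < c} ∈ 𝓝 q₀ :=
    Filter.inter_mem (hU.mem_nhds hq₀)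
      (hW.hasDerivAt.continuousAt.norm.eventually (gt_mem_nhds hWc))
  have himg : Φ '' {q | q ∈ U ∧ ‖W q‖ < c} ∈ 𝓝 (Φ q₀) := by
    rw [← hmap]
    exact Filter.image_mem_map hV
  set ρ : ℝ := ‖Φ q₀‖ with hρ
  have hρ0 : 0 < ρ := by
    rw [hρ, norm_pos_iff, hΦ]
    exact div_ne_zero h3 h2
  have hρ1 : ρ < 1 := by
    rw [hρ, hΦ]
    simp only
    rw [norm_div, div_lt_one (norm_pos_iff.mpr h2)]
    have hre : (W q₀).re < 1 := (Complex.re_le_norm _).trans_lt h1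
    have hsq : ‖1 - W q₀‖ ^ 2 < ‖2 - W q₀‖ ^ 2 := by
      rw [Complex.sq_norm, Complex.sq_norm, Complex.normSq_apply, Complex.normSq_apply]
      simp only [Complex.sub_re, Complex.sub_im, Complex.one_re, Complex.one_im,
        Complex.re_ofNat, Complex.im_ofNat]
      nlinarith
    exact lt_of_pow_lt_pow_left₀ 2 (norm_nonneg _) hsq
  have hlim : Tendsto (fun n : ℕ => ρ ^ n) atTop (𝓝 0) :=
    tendsto_pow_atTop_nhds_zero_of_lt_one hρ0.le hρ1
  have hev1 := hlim.eventually (gt_mem_nhds (show (0 : ℝ) < 2 / 3 by norm_num))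
  have hev2 := hlim.eventually (gt_mem_nhds (show (0 : ℝ) < 1 - 1 / (2 - c) by
    rw [sub_pos, div_lt_one (by linarith)]; linarith))
  obtain ⟨n, ⟨⟨⟨zp, hzp, hp⟩, zm, hzm, hm⟩, hn1, hn2⟩, hn3⟩ :=
    (((exists_pow_real himg).and (hev1.and hev2)).and (eventually_ge_atTop 2)).exists
  obtain ⟨r, rfl⟩ : ∃ r, n = r + 2 := ⟨n - 2, by omega⟩
  obtain ⟨qp, ⟨hqpU, hqpc⟩, rfl⟩ := hzp
  obtain ⟨qm, ⟨hqmU, hqmc⟩, rfl⟩ := hzm
  have hxpos : 0 < ρ ^ (r + 2) := by positivity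
  have e1 := ev_gt (w := W qm) (hqmc.trans hc1) (r := r) hxpos hm
  have e2 := ev_lt (w := W qp) (hqpc.trans hc1) (r := r) hxpos hn1 (by
    have h4 : 2 - c ≤ ‖2 - W qp‖ := by
      have h := norm_sub_norm_le (2 : ℂ) (W qp)
      have h2 : ‖(2 : ℂ)‖ = 2 := by norm_num
      rw [h2] at h
      linarith
    have h5 : 1 / (2 - c) < 1 - ρ ^ (r + 2) := by linarith
    calc (1 : ℝ) = (2 - c) * (1 / (2 - c)) := by
          rw [mul_one_div, div_self]; linarith
      _ < (2 - c) * (1 - ρ ^ (r + 2)) := mul_lt_mul_of_pos_left h5 (by linarith)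
      _ ≤ _ := mul_le_mul_of_nonneg_right h4 (by linarith)) hp
  obtain ⟨K, k1, k2⟩ := (e1.and e2).exists
  obtain ⟨M, m1, m2⟩ := (k1.and k2).exists
  have hfd : DifferentiableOn ℂ (fun q => al M (r + 1) 0 (W q) (W q ^ K)) U := by
    have : (fun q => al M (r + 1) 0 (W q) (W q ^ K)) =
        fun q => (al M (r + 1) (0 : ℂ[X]) X (X ^ K)).eval (W q) := by
      funext q; rw [al_poly]
    rw [this]
    exact (Polynomial.differentiable _).comp_differentiableOn hWU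
  have hgd : DifferentiableOn ℂ (fun q => be M (r + 1) 0 (W q) (W q ^ K)) U := by
    have : (fun q => be M (r + 1) 0 (W q) (W q ^ K)) =
        fun q => (be M (r + 1) (0 : ℂ[X]) X (X ^ K)).eval (W q) := by
      funext q; rw [be_poly]
    rw [this]
    exact (Polynomial.differentiable _).comp_differentiableOn hWU
  obtain ⟨k, hk, q, hq, heq⟩ := exists_pow_eq hU hc hfd hgd hqpU hqmU m2 m1
  refine ⟨r + 1, K, M, k, hk, ⟨q, hq, heq⟩, qp, hqpU, hqpc.trans hc1, ?_⟩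
  intro h
  have h6 := congrArg norm h
  rw [norm_pow, norm_pow] at h6
  exact absurd h6 (pow_lt_pow_left₀ m2 (norm_nonneg _) (by omega)).ne

end Pool.Agent.RELD
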